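import Pool.Agent.R413.SJ.Mrt
import Pool.Agent.Y700.Defs2
import Pool.Agent.Y698.SG.Wc

/-!
# The two diagonals differ at many primes, the algebra
-/

set_option autoImplicit false

open scoped Classical

namespace Pool.Agent.R413.SJ

open Finset
open Pool.Agent.Y703.CQ (Sp)
open Pool.Agent.Y698.SG (n4)

theorem al_core {p : ℕ} (hp : Sp p) (h : Pool.Agent.Y700.Rt p 1 ↔ n4 p ≠ 0) : Al p := by
  obtain ⟨hp1, h8, h7⟩ := hp
  have h2 : p ≠ 2 := by rintro rfl; omega
  have : Fact p.Prime := ⟨hp1⟩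
  obtain ⟨i, hi⟩ := sq_m7 hp1 h2 h7
  have hm1 : IsSquare (-1 : ZMod p) := ZMod.exists_sq_eq_neg_one_iff.2 (by omega)
  have hm2 : IsSquare (2 : ZMod p) := (ZMod.exists_sq_eq_two_iff h2).2 (by omega)
  have h20 : (2 : ZMod p) ≠ 0 := by
    intro h
    have h3 : ((2 : ℕ) : ZMod p) = 0 := by exact_mod_cast h
    rw [ZMod.natCast_eq_zero_iff] at h3
    exact h2 ((Nat.prime_dvd_prime_iff_eq hp1 Nat.prime_two).1 h3)
  have hp7 : p ≠ 7 := by rintro rfl; omega
  have h70 : (7 : ZMod p) ≠ 0 := by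
    intro h
    have h3 : ((7 : ℕ) : ZMod p) = 0 := by exact_mod_cast h
    rw [ZMod.natCast_eq_zero_iff] at h3
    exact hp7 ((Nat.prime_dvd_prime_iff_eq hp1 (by norm_num)).1 h3)
  have hi0 : i ≠ 0 := by
    rintro rfl
    rw [mul_zero] at hi
    exact h70 (neg_eq_zero.1 hi)
  set w : ZMod p := (1 + i) / 2 with hw
  have hiw : i = 2 * w - 1 := by rw [hw]; field_simp; ring
  have w2 : w ^ 2 - w + 2 = 0 := by
    have h4 : (2 : ZMod p) * 2 ≠ 0 := mul_ne_zero h20 h20
    apply (mul_right_inj' h4).1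
    rw [hiw] at hi
    linear_combination -hi
  have hw0 : w ≠ 0 := by
    intro h0
    rw [h0] at w2
    apply h20
    linear_combination w2
  have hv0 : 1 - w ≠ 0 := by
    intro h0
    apply h20
    linear_combination w2 + w * h0
  have w7 : w ^ 7 = 7 * w - 10 := by
    linear_combination (w ^ 5 + w ^ 4 - w ^ 3 - 3 * w ^ 2 - w + 5) * w2
  have v7 : (1 - w) ^ 7 = 7 * (1 - w) - 10 := by
    have v2 : (1 - w) ^ 2 - (1 - w) + 2 = 0 := by linear_combination w2
    linear_combination ((1 - w) ^ 5 + (1 - w) ^ 4 - (1 - w) ^ 3 - 3 * (1 - w) ^ 2 - (1 - w) + 5) * v2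
  -- the square
  have key : IsSquare (i * w) → Al p := by
    rintro ⟨t, ht⟩
    refine ⟨t, ?_⟩
    have e : t ^ 2 = w - 4 := by
      have : t ^ 2 = i * w := by rw [ht]; ring
      rw [this, hiw]
      linear_combination 2 * w2
    have e2 : t ^ 4 = (w - 4) ^ 2 := by rw [← e]; ring
    rw [e2, e]
    linear_combination w2
  apply key
  have n4i : n4 p = 0 ↔ IsSquare i := by
    unfold Pool.Agent.Y698.SG.n4
    constructor
    · intro h0
      have h3 : ∃ y : ZMod p, y ^ 4 = -7 := by
        by_contra hc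
        rw [if_neg hc] at h0
        exact absurd h0 (by decide)
      obtain ⟨y, hy⟩ := h3
      have h4 : (y ^ 2 - i) * (y ^ 2 + i) = 0 := by linear_combination hy + hi
      rcases mul_eq_zero.1 h4 with h5 | h5
      · exact ⟨y, by linear_combination -h5⟩
      · obtain ⟨j, hj⟩ := hm1
        refine ⟨j * y, ?_⟩
        have h6 : i = (-1) * y ^ 2 := by linear_combination h5
        rw [h6, hj]
        ring
    · rintro ⟨y, hy⟩
      rw [if_pos]
      refine ⟨y, ?_⟩
      rw [hi, hy]
      ring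
  have rti : Pool.Agent.Y700.Rt p 1 ↔ ¬ IsSquare w := by
    unfold Pool.Agent.Y700.Rt
    push_cast
    constructor
    · rintro h0 ⟨y, hy⟩
      refine h0 (w ^ 7) ?_ ⟨y ^ 7, by rw [hy]; ring⟩
      rw [w7]
      linear_combination 49 * w2
    · rintro h0 x hx ⟨y, hy⟩
      apply h0
      have h4 : (x - (7 * w - 10)) * (x - (7 * (1 - w) - 10)) = 0 := by
        linear_combination hx - 49 * w2
      rcases mul_eq_zero.1 h4 with h5 | h5
      · have h6 : x = w ^ 7 := by rw [w7]; linear_combination h5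
        refine ⟨y / w ^ 3, ?_⟩
        rw [div_mul_div_comm, ← hy, h6]
        field_simp
      · have h6 : x = (1 - w) ^ 7 := by rw [v7]; linear_combination h5
        obtain ⟨j, hj⟩ := hm2
        have h7' : w * (1 - w) = 2 := by linear_combination -w2
        refine ⟨j * y / (1 - w) ^ 4, ?_⟩
        have e : j * y / (1 - w) ^ 4 * (j * y / (1 - w) ^ 4) = (j * j) * (y * y) / (1 - w) ^ 8 := by
          rw [div_mul_div_comm]
          congr 1 <;> ring
        rw [e, ← hj, ← hy, h6, ← h7']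
        field_simp
  rw [← quadraticChar_one_iff_isSquare (mul_ne_zero hi0 hw0), map_mul]
  by_cases h0 : n4 p = 0
  · have h3 := n4i.1 h0
    have h4 : IsSquare w := by
      by_contra hc
      exact (h.1 (rti.2 hc)) h0
    rw [(quadraticChar_one_iff_isSquare hi0).2 h3, (quadraticChar_one_iff_isSquare hw0).2 h4]
    norm_num
  · have h3 : ¬ IsSquare i := fun h5 => h0 (n4i.2 h5)
    have h4 : ¬ IsSquare w := rti.1 (h.2 h0)
    rw [quadraticChar_neg_one_iff_not_isSquare.2 h3, quadraticChar_neg_one_iff_not_isSquare.2 h4]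
    norm_num

end Pool.Agent.R413.SJ
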