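import Pool.Agent.R413.SJ.Stm
import Pool.Agent.Y703.CQ.Asy
import Pool.Agent.Y687.JQ.Asy

/-!
# The final asymptotics for two diagonals (adapted from projects CQ and JQ)
-/

set_option autoImplicit false

open scoped Classical
open Finset Filter

namespace Pool.Agent.R413.SJ

open Pool.Agent.Y703.CX (sm la jj XX eL zz kk S_SIE eL_tendsto logX_eq rpow_eL HH NN ev_eL one_le_exp
  HH_ge HH_le HH_pos kk_ge kk_le X_pos one_add_log lin_le kap zz_ge zz_pos kap_nonneg kap_pow kap_le)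
open Pool.Agent.Y703.CQ
open Pool.Agent.Y687.JQ (sml_mainJ)

/-- the sets outside the regular part -/
theorem out_subT (I K : Finset ℕ) (f g : ℕ → ZMod 2) (X z H k R : ℕ) :
    SS I K X \ ((RR I K X z H k R).filter fun S => NdT R f g (sm z S) (la z S)) ⊆
      ((((((SS I K X).filter fun S => k < S.card) ∪
      ((SS I K X).filter fun S => S.card ≤ k ∧
        X < (∏ p ∈ sm z S, p) * ∏ p ∈ la z S, XX H (jj H p))) ∪
      ((SS I K X).filter fun S => ¬ Set.InjOn (jj H) (la z S : Set ℕ))) ∪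
      ((SS I K X).filter fun S => ((la z S).filter fun p => p % 8 = 1).card ≤
        2 * (sm z S).card + R ∨ ∀ p ∈ la z S, p % 8 = 1)) ∪
      ((SS I K X).filter fun S => S.card ≤ k ∧ ¬ Nd (sm z S) (la z S))) ∪
      ((SS I K X).filter fun S => ((la z S).filter fun p => p % 8 = 1 ∧ f p ≠ g p).card <
        2 * (sm z S).card + R) := by
  intro S hS
  rw [Finset.mem_sdiff, Finset.mem_filter] at hS
  obtain ⟨h1, h2⟩ := hS
  by_contra hc
  rw [mem_union, mem_union, mem_union, mem_union, mem_union] at hc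
  simp only [mem_filter] at hc
  push Not at hc
  obtain ⟨⟨⟨⟨⟨c1, c2⟩, c3⟩, c4⟩, c5⟩, c6⟩ := hc
  have d1 : S.card ≤ k := c1 h1
  have d2 := c2 h1 d1
  have d3 := c3 h1
  have d4 := c4 h1
  have d5 := c5 h1 d1
  have d6 := c6 h1
  apply h2
  refine ⟨?_, d5, d6⟩
  unfold RR
  rw [mem_filter]
  exact ⟨h1, d3, d1, d2, d4.1, d4.2⟩

theorem t_TDQ (h1 : S_BIL) (h3 : S_EQ) (h4 : S_TLA) (h5 : S_TBOX)
    (hK : S_TKEY) (hC : CntP) (hS : S_SIE) (hH : S_HAL) (hB : S_BAD) (hF : S_FEW)
    (hTF : S_TFEW) (hM : S_MER) (hCh : S_CHE) (hLo : S_LOW) (hc2 : S_C2) : S_TDQ := by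
  intro I K f g hO hfg
  obtain ⟨c, X₀, hc, hlow⟩ := hLo hM hCh I K hO
  obtain ⟨CB, XB, hbad⟩ := hB hS hH hM I K hO
  have hdp := dl_pos hO
  have hdl := dl_lt hO
  rw [Metric.tendsto_nhds]
  intro ε hε
  obtain ⟨R, C, hC1, hkey⟩ := hK h1 h3 h4 h5 (ε / 4) (by linarith)
  obtain ⟨CF, XF, hfew⟩ := hF hS hM I K R hO
  obtain ⟨δT, CT, XT, hδT, hfewT⟩ := hTF hS hM I K f g R hO hfg
  have s1 := sml_many hO (t := 1 - dl I) (by linarith) hC
  have s2 := sml_cut hO (t := 1 - dl I) (by linarith) hC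
  have s3 := sml_coll hO (t := 1 - dl I) (by linarith) hC
  have s4 := sml_rpow (t := 1 - dl I) (by linarith) hfew
  have s5 := sml_rpow (t := 1 - dl I) (by linarith) hbad
  have s6 := sml_mainJ hC1 (t := 1 - dl I) (by linarith)
  have s7 := sml_rpow (t := 1 - dl I) (by linarith) hfewT
  have s := sml_add (sml_add (sml_add (sml_add (sml_add (sml_add s1 s2) s3) s4) s5) s6) s7
  have hδ : (0 : ℝ) < c * ε / 4 := by positivity
  filter_upwards [s (c * ε / 4) hδ, ev_eL 1, eventually_ge_atTop X₀] with X hX hl hX0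
  have hl0 : 0 < eL X := by linarith
  have hlo := hlow X hX0
  have e00 : (-1 + dl I : ℝ) = -(1 - dl I) := by ring
  rw [e00, rpow_eL hl0] at hlo
  have hXp := X_pos hl0
  have hXp' : (0 : ℝ) < X := by exact_mod_cast hXp
  have hSpos : (0 : ℝ) < ((SS I K X).card : ℝ) := by
    refine lt_of_lt_of_le ?_ hlo
    positivity
  have hN : (HH X : ℝ) * Real.log X < NN X := by
    unfold NN
    push_cast
    exact Nat.lt_floor_add_one _
  have hmain := hkey I K f g X (zz X) (HH X) (kk X) R (NN X) (kap C X) hO hXp (HH_pos hl0)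
    (zz_pos hl) (kap_nonneg hC1 X) (kap_pow hC1 hl) hN
  set T := (RR I K X (zz X) (HH X) (kk X) R).filter fun S =>
    NdT R f g (sm (zz X) S) (la (zz X) S) with hT
  have hTG : (RR I K X (zz X) (HH X) (kk X) R).filter
      (fun S => NdT R f g (sm (zz X) S) (la (zz X) S) ∧ GdT f g S) = T.filter (GdT f g) := by
    rw [hT, filter_filter]
  rw [hTG] at hmain
  have hTS : T ⊆ SS I K X := (filter_subset _ _).trans (filter_subset _ _)
  have hRS : ((RR I K X (zz X) (HH X) (kk X) R).card : ℝ) ≤ ((SS I K X).card : ℝ) := by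
    exact_mod_cast card_le_card (filter_subset _ _)
  have hp0 : 0 ≤ c2 ^ 2 := pow_nonneg hc2.2.1.le _
  have hp1 : c2 ^ 2 ≤ 1 := pow_le_one₀ hc2.2.1.le hc2.2.2.1.le
  have hcmp := cmp (GdT f g) T (SS I K X) hTS (c2 ^ 2) hp0 hp1
  have hout : ((SS I K X \ T).card : ℝ) ≤
      ((((SS I K X).filter fun S => kk X < S.card).card : ℝ) +
      (((SS I K X).filter fun S => S.card ≤ kk X ∧
        X < (∏ p ∈ sm (zz X) S, p) * ∏ p ∈ la (zz X) S, XX (HH X) (jj (HH X) p)).card : ℝ) +
      (((SS I K X).filter fun S => ¬ Set.InjOn (jj (HH X)) (la (zz X) S : Set ℕ)).card : ℝ) +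
      (((SS I K X).filter fun S => ((la (zz X) S).filter fun p => p % 8 = 1).card ≤
        2 * (sm (zz X) S).card + R ∨ ∀ p ∈ la (zz X) S, p % 8 = 1).card : ℝ)) +
      (((SS I K X).filter fun S => S.card ≤ kk X ∧
        ¬ Nd (sm (zz X) S) (la (zz X) S)).card : ℝ) +
      (((SS I K X).filter fun S => ((la (zz X) S).filter fun p => p % 8 = 1 ∧
        f p ≠ g p).card < 2 * (sm (zz X) S).card + R).card : ℝ) := by
    have g' := card_le_card (out_subT I K f g X (zz X) (HH X) (kk X) R)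
    rw [← hT] at g'
    have g2 := ((g'.trans (card_union_le _ _)).trans (Nat.add_le_add_right
      ((card_union_le _ _).trans (Nat.add_le_add_right ((card_union_le _ _).trans
      (Nat.add_le_add_right ((card_union_le _ _).trans
      (Nat.add_le_add_right (card_union_le _ _) _)) _)) _)) _))
    exact_mod_cast g2
  have htot : |(((SS I K X).filter (GdT f g)).card : ℝ) - c2 ^ 2 * ((SS I K X).card : ℝ)| ≤
      ε / 4 * ((SS I K X).card : ℝ) +
        c * ε / 4 * (X * Real.exp (-(1 - dl I) * eL X)) := by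
    have g1 : ε / 4 * ((RR I K X (zz X) (HH X) (kk X) R).card : ℝ) ≤
        ε / 4 * ((SS I K X).card : ℝ) := mul_le_mul_of_nonneg_left hRS (by positivity)
    linarith
  rw [Real.dist_eq]
  have e3 : (((SS I K X).filter (GdT f g)).card : ℝ) / ((SS I K X).card : ℝ) - c2 ^ 2 =
      ((((SS I K X).filter (GdT f g)).card : ℝ) - c2 ^ 2 * ((SS I K X).card : ℝ)) /
        ((SS I K X).card : ℝ) := by
    field_simp
  rw [e3, abs_div, abs_of_pos hSpos, div_lt_iff₀ hSpos]
  refine lt_of_le_of_lt htot ?_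
  have g2 : c * ε / 4 * (X * Real.exp (-(1 - dl I) * eL X)) ≤ ε / 4 * ((SS I K X).card : ℝ) := by
    calc c * ε / 4 * (X * Real.exp (-(1 - dl I) * eL X)) =
          ε / 4 * (c * X * Real.exp (-(1 - dl I) * eL X)) := by ring
      _ ≤ _ := mul_le_mul_of_nonneg_left hlo (by linarith)
  have g4 : 0 < ε * ((SS I K X).card : ℝ) := by positivity
  linarith

end Pool.Agent.R413.SJ
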