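import Pool.Agent.Y703.CQ.Stm

/-!
# The joint exact proportion for two diagonals (after projects CQ and JQ)

Two symmetric matrices over `𝔽₂` which are attached to `D` and differ only on the diagonal, by the
function `f + g` of the prime factors, are both nonsingular for exactly the proportion `c2 ^ 2`, if `f`
and `g` are different at a positive proportion of the split primes. Statements of the parts;
everything which is not defined here is in `Pool.Agent.Y703.CQ.Stm`.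
-/

set_option autoImplicit false
set_option linter.unusedVariables false

open scoped Classical

namespace Pool.Agent.R413.SJ

open Finset
open Pool.Agent.Y703.CX (sm la jj XX eL zz kk S_SIE)
open Pool.Agent.Y703.CQ

/-- good for both diagonals -/
def GdT (f g : ℕ → ZMod 2) (S : Finset ℕ) : Prop := Gd f S ∧ Gd g S

/-- the two functions are different at many split primes -/
def MerD (f g : ℕ → ZMod 2) : Prop := ∃ C : ℝ, ∀ y : ℕ, 3 ≤ y →
  1 / 16 * Real.log (Real.log y) - C ≤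
    ∑ p ∈ (range (y + 1)).filter (fun p => Sp p ∧ f p ≠ g p), (1 : ℝ) / p

/-- FINAL: the proportion of the jointly good sets -/
def S_TDQ : Prop := ∀ (I K : Finset ℕ) (f g : ℕ → ZMod 2), Ok I K → MerD f g → Filter.Tendsto
    (fun X : ℕ => (((SS I K X).filter (GdT f g)).card : ℝ) / ((SS I K X).card : ℝ))
    Filter.atTop (nhds (c2 ^ 2))

/-- FINAL, in terms of the numbers `D`. -/
def S_TDEN : Prop := ∀ (I K : Finset ℕ) (f g : ℕ → ZMod 2), Ok I K → MerD f g → Filter.Tendsto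
  (fun X : ℕ => (((Icc 1 X).filter fun D => Squarefree D ∧ Cl I K D.primeFactors ∧
      GdT f g D.primeFactors).card : ℝ) /
    (((Icc 1 X).filter fun D => Squarefree D ∧ Cl I K D.primeFactors).card : ℝ))
  Filter.atTop (nhds (c2 ^ 2))

/-- SJ-LA: the probability that a random symmetric completion is good for both diagonals. -/
def S_TLA : Prop := ∀ ε : ℝ, 0 < ε → ∃ R : ℕ, ∀ (U J : Type) [Fintype U] [Fintype J]
  [LinearOrder J] (U1 : Finset U) (J1 : Finset J), (∃ l, l ∉ J1) →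
  ∀ (A : U → U → ZMod 2) (B : U → J → ZMod 2) (C : J → U → ZMod 2) (f f' : U → ZMod 2)
  (g g' : J → ZMod 2),
  (∀ u ∈ U1, ∀ v ∈ U1, A u v = A v u) → (∀ u ∈ U1, ∀ k ∈ J1, B u k = C k u) →
  (∀ w : U → ZMod 2, (∀ u, u ∉ U1 → w u = 0) → (∃ u, w u ≠ 0) → ∃ k ∈ J1, ∑ u, w u * C k u ≠ 0) →
  2 * U1.card + R ≤ (J1.filter fun k => g k ≠ g' k).card →
  |((univ.filter fun α : prs J1 → ZMod 2 => GdA U1 J1 A B C (ext α) f g ∧
      GdA U1 J1 A B C (ext α) f' g').card : ℝ) / 2 ^ (prs J1).card - c2 ^ 2| ≤ ε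

/-- the labels of the large primes `S₁` with respect to the small ones `S₀` are not degenerate, and
the two functions are different at many large split primes -/
def NdT (R : ℕ) (f g : ℕ → ZMod 2) (S₀ S₁ : Finset ℕ) : Prop :=
  Nd S₀ S₁ ∧ 2 * S₀.card + R ≤ (S₁.filter fun p => p % 8 = 1 ∧ f p ≠ g p).card

/-- SJ-BOX: the count in a box. -/
def S_TBOX : Prop := S_EQ → S_TLA → ∀ ε : ℝ, 0 < ε → ∃ R : ℕ, ∀ (f g : ℕ → ZMod 2)
  (ι : Type) [Fintype ι] [LinearOrder ι] (J1 : Finset ι) (C : ι → Finset ℕ) (X : ι → ℕ) (κ : ℝ)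
  (S₀ : Finset ℕ), 0 ≤ κ →
  (∀ i, (C i).card ≤ X i) → HB J1 C X κ → (∀ u ∈ S₀, u.Prime ∧ u ≠ 2) →
  (∀ i, ∀ p ∈ C i, p.Prime ∧ p ≠ 2 ∧ p ∉ S₀ ∧ (i ∈ J1 ↔ p % 8 = 1)) →
  (∀ i l, i ≠ l → Disjoint (C i) (C l)) → (∃ i, i ∉ J1) →
  |(((Fintype.piFinset C).filter fun p => NdT R f g S₀ (univ.image p) ∧
      GdT f g (S₀ ∪ univ.image p)).card : ℝ) -
      c2 ^ 2 * (((Fintype.piFinset C).filter fun p => NdT R f g S₀ (univ.image p)).card : ℝ)| ≤
    ε * (((Fintype.piFinset C).filter fun p => NdT R f g S₀ (univ.image p)).card : ℝ) +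
    2 ^ ((2 * S₀.card + 2) * Fintype.card ι + (prs J1).card) * (κ * ∏ j, (X j : ℝ))

/-- SJ-KEY: the sum over the boxes. -/
def S_TKEY : Prop := S_BIL → S_EQ → S_TLA → S_TBOX → ∀ ε : ℝ, 0 < ε →
  ∃ (R : ℕ) (C : ℝ), 1 ≤ C ∧
  ∀ (I K : Finset ℕ) (f g : ℕ → ZMod 2) (X z H k V N : ℕ) (κ : ℝ),
  Ok I K → 1 ≤ X → 1 ≤ H → 1 ≤ z → 0 ≤ κ → C ≤ κ ^ 12 * z → (H : ℝ) * Real.log X < N →
  |(((RR I K X z H k V).filter fun S => NdT R f g (sm z S) (la z S) ∧ GdT f g S).card : ℝ) -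
      c2 ^ 2 * (((RR I K X z H k V).filter fun S => NdT R f g (sm z S) (la z S)).card : ℝ)| ≤
    ε * ((RR I K X z H k V).card : ℝ) +
    (9 * N + 9 : ℝ) ^ k * (3 ^ (6 * k ^ 2) * κ) * (X * (1 + Real.log X))

/-- SJ-FEW: few sets have few large split primes at which the two functions are different. -/
def S_TFEW : Prop := S_SIE → S_MER → ∀ (I K : Finset ℕ) (f g : ℕ → ZMod 2) (R : ℕ), Ok I K →
  MerD f g → ∃ (δ C : ℝ) (X₀ : ℕ), 0 < δ ∧ ∀ X : ℕ, X₀ ≤ X →
  (((SS I K X).filter fun S => ((la (zz X) S).filter fun p => p % 8 = 1 ∧ f p ≠ g p).card <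
      2 * (sm (zz X) S).card + R).card : ℝ) ≤
    C * X * (Real.log X) ^ (-1 + dl I - δ : ℝ)

/-- SJ-NS: the translation. -/
def S_TNS : Prop := S_TDQ → S_TDEN

end Pool.Agent.R413.SJ
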