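import Pool.Agent.Y657.CQ.BOX
import Pool.Agent.R413.SJ.Stm

/-! SJ-BOX: the joint count in a box (adapted from `Pool.Agent.Y657.CQ.BOX` of helper657). -/

set_option autoImplicit false

open scoped Classical

namespace Pool.Agent.R413.SJ.BOX

open Finset
open Pool.Agent.Y703.CQ
open Pool.Agent.Y657.CQ (nr_self nr_symm nd_iff sum_un ext_sum HB_sub gd_iff Lb lb LN)
open Pool.Agent.R413.SJ

/-- the type of the labels -/
abbrev Lc (S₀ : Finset ℕ) : Type := Lb S₀ × ZMod 2

/-- the label of a prime with respect to the small primes -/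
noncomputable def lc (f g : ℕ → ZMod 2) (S₀ : Finset ℕ) (x : ℕ) : Lc S₀ := (lb f S₀ x, g x)

/-- the good labels -/
def LM {ι : Type} (R : ℕ) (S₀ : Finset ℕ) (J1 : Finset ι) (β : ι → Lc S₀) : Prop :=
  LN S₀ J1 (fun i => (β i).1) ∧
    2 * S₀.card + R ≤ (J1.filter fun i => (β i).1.2.2 ≠ (β i).2).card

theorem ndT_iff {ι : Type} [Fintype ι] {J1 : Finset ι} {S₀ : Finset ℕ} {p : ι → ℕ}
    (f g : ℕ → ZMod 2) (R : ℕ) (hp : Function.Injective p) (hJ : ∀ i, p i % 8 = 1 ↔ i ∈ J1) :
    NdT R f g S₀ (univ.image p) ↔ LM R S₀ J1 (fun i => lc f g S₀ (p i)) := by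
  unfold NdT LM
  have h4 : (univ.image p).filter (fun q => q % 8 = 1 ∧ f q ≠ g q) =
      (J1.filter fun i => (lc f g S₀ (p i)).1.2.2 ≠ (lc f g S₀ (p i)).2).image p := by
    ext q
    simp only [Finset.mem_filter, Finset.mem_image, Finset.mem_univ, true_and]
    constructor
    · rintro ⟨⟨i, rfl⟩, h5, h6⟩
      exact ⟨i, ⟨(hJ i).1 h5, h6⟩, rfl⟩
    · rintro ⟨i, ⟨hi, h6⟩, rfl⟩
      exact ⟨⟨i, rfl⟩, (hJ i).2 hi, h6⟩
  rw [h4, Finset.card_image_of_injective _ hp]
  exact and_congr (nd_iff f hJ) Iff.rfl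

/-- **The count in a box.** -/
theorem t_TBOX : S_TBOX := by
  intro hEQ hTLA ε hε
  obtain ⟨R₀, hLA⟩ := hTLA ε hε
  refine ⟨R₀, ?_⟩
  intro f g ι _ _ J1 C X κ S₀ hκ hCX hHB hS₀ hC hdis hne
  set R : ℝ := 2 ^ (prs J1).card * (κ * ∏ j, (X j : ℝ)) with hR
  have hR0 : 0 ≤ R := mul_nonneg (by positivity)
    (mul_nonneg hκ (Finset.prod_nonneg fun j _ => by positivity))
  -- facts on tuples
  have hinj : ∀ p ∈ Fintype.piFinset C, Function.Injective p := by
    intro p hp i j hij
    rw [Fintype.mem_piFinset] at hp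
    by_contra hne
    have h1 := Finset.disjoint_left.1 (hdis i j hne) (hp i)
    rw [hij] at h1
    exact h1 (hp j)
  have hJ : ∀ p ∈ Fintype.piFinset C, ∀ i, p i % 8 = 1 ↔ i ∈ J1 := by
    intro p hp i
    rw [Fintype.mem_piFinset] at hp
    exact (hC i _ (hp i)).2.2.2.symm
  have hd : ∀ p ∈ Fintype.piFinset C, ∀ i, p i ∉ S₀ := by
    intro p hp i
    rw [Fintype.mem_piFinset] at hp
    exact (hC i _ (hp i)).2.2.1
  have hpr : ∀ p ∈ Fintype.piFinset C, ∀ i, (p i).Prime ∧ p i ≠ 2 := by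
    intro p hp i
    rw [Fintype.mem_piFinset] at hp
    exact ⟨(hC i _ (hp i)).1, (hC i _ (hp i)).2.1⟩
  have hU1 : (univ.filter fun u : S₀ => (u : ℕ) % 8 = 1).card ≤ S₀.card := by
    refine (Finset.card_le_univ _).trans ?_
    rw [Fintype.card_coe]
  -- the part with given labels
  have h1 : ∀ β : ι → Lc S₀, LM R₀ S₀ J1 β →
      |(((Fintype.piFinset C).filter fun p => (fun i => lc f g S₀ (p i)) = β ∧
          GdT f g (S₀ ∪ univ.image p)).card : ℝ) -
        c2 ^ 2 * (((Fintype.piFinset C).filter fun p => (fun i => lc f g S₀ (p i)) = β).card : ℝ)| ≤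
      ε * (((Fintype.piFinset C).filter fun p => (fun i => lc f g S₀ (p i)) = β).card : ℝ) + R := by
    intro β hβ
    by_cases hemp : ((Fintype.piFinset C).filter fun p => (fun i => lc f g S₀ (p i)) = β) = ∅
    · have he2 : ((Fintype.piFinset C).filter fun p => (fun i => lc f g S₀ (p i)) = β ∧
          GdT f g (S₀ ∪ univ.image p)) = ∅ := by
        rw [← Finset.filter_filter, hemp, Finset.filter_empty]
      rw [he2, hemp]
      simpa using hR0
    obtain ⟨p₀, hp₀⟩ := Finset.nonempty_iff_ne_empty.2 hemp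
    rw [Finset.mem_filter] at hp₀
    obtain ⟨hp₀, hp₀β⟩ := hp₀
    set C' : ι → Finset ℕ := fun i => (C i).filter fun q => lc f g S₀ q = β i with hC'
    have hpi : (Fintype.piFinset C).filter (fun p => (fun i => lc f g S₀ (p i)) = β) =
        Fintype.piFinset C' := by
      ext p
      simp only [Finset.mem_filter, Fintype.mem_piFinset, hC']
      constructor
      · rintro ⟨h2, h3⟩ i
        exact ⟨h2 i, congrFun h3 i⟩
      · intro h2
        exact ⟨fun i => (h2 i).1, funext fun i => (h2 i).2⟩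
    have h2 := hLA S₀ ι (univ.filter fun u : S₀ => (u : ℕ) % 8 = 1) J1 hne
      (fun u v => nr u v) (fun u l => (β l).1.1 u) (fun k u => (β k).1.2.1 u) (fun u => f u)
      (fun u => g u) (fun k => (β k).1.2.2) (fun k => (β k).2)
      (by
        intro u hu v hv
        exact nr_symm (hS₀ u u.2).1 (Finset.mem_filter.1 hu).2 (hS₀ v v.2).1 (hS₀ v v.2).2)
      (by
        intro u hu k hk
        have h3 := congrFun hp₀β k
        rw [← h3]
        exact nr_symm (hS₀ u u.2).1 (Finset.mem_filter.1 hu).2 (hpr p₀ hp₀ k).1 (hpr p₀ hp₀ k).2)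
      (by
        rintro w hw0 ⟨u, hu⟩
        have hu8 : (u : ℕ) % 8 = 1 := by
          by_contra h8
          exact hu (hw0 u fun hu' => h8 (Finset.mem_filter.1 hu').2)
        obtain ⟨k, hk, hk2⟩ := hβ.1 w ⟨u, hu8, hu⟩
        refine ⟨k, hk, ?_⟩
        rw [Finset.sum_filter] at hk2
        intro h0
        apply hk2
        refine Eq.trans ?_ h0
        refine Finset.sum_congr rfl fun v _ => ?_
        split_ifs with h8
        · rfl
        · rw [hw0 v fun hv => h8 (Finset.mem_filter.1 hv).2, zero_mul])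
      (by
        have h3 := hβ.2
        omega)
    obtain ⟨Q, hQ⟩ : ∃ Q : (prs J1 → ZMod 2) → Prop, ∀ α, Q α ↔
        GdA (univ.filter fun u : S₀ => (u : ℕ) % 8 = 1)
          J1 (fun u v : S₀ => nr u v) (fun (u : S₀) l => (β l).1.1 u)
          (fun k (u : S₀) => (β k).1.2.1 u)
          (Pool.Agent.Y703.CQ.ext α) (fun u : S₀ => f u) (fun k => (β k).1.2.2) ∧
        GdA (univ.filter fun u : S₀ => (u : ℕ) % 8 = 1)
          J1 (fun u v : S₀ => nr u v) (fun (u : S₀) l => (β l).1.1 u)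
          (fun k (u : S₀) => (β k).1.2.1 u)
          (Pool.Agent.Y703.CQ.ext α) (fun u : S₀ => g u) (fun k => (β k).2) :=
      ⟨_, fun _ => Iff.rfl⟩
    have h3 := hEQ ι J1 C' X κ hκ
      (fun i => (Finset.card_le_card (Finset.filter_subset _ _)).trans (hCX i))
      (HB_sub hHB fun i q => lc f g S₀ q = β i) Q
    have h4 : ((Fintype.piFinset C).filter fun p => (fun i => lc f g S₀ (p i)) = β ∧
        GdT f g (S₀ ∪ univ.image p)) = ((Fintype.piFinset C').filter fun p =>
          Q fun e => nr (p e.1.1) (p e.1.2)) := by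
      rw [← hpi, Finset.filter_filter]
      refine Finset.filter_congr fun p hp => ?_
      refine and_congr_right fun hl => ?_
      rw [hQ]
      unfold GdT
      rw [gd_iff f (hinj p hp) (hpr p hp) (hd p hp) (hJ p hp),
        gd_iff g (hinj p hp) (hpr p hp) (hd p hp) (hJ p hp)]
      subst hl
      exact Iff.rfl
    have h5 : (((Fintype.piFinset C').card : ℕ) : ℝ) = ∏ j, ((C' j).card : ℝ) := by
      rw [Fintype.card_piFinset]
      push_cast
      rfl
    rw [h4, hpi, h5]
    have h2' : |((univ.filter Q).card : ℝ) / 2 ^ (prs J1).card - c2 ^ 2| ≤ ε := by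
      rw [Finset.filter_congr fun α _ => hQ α]
      exact h2
    set n : ℝ := (((Fintype.piFinset C').filter fun p =>
          Q fun e => nr (p e.1.1) (p e.1.2)).card : ℝ) with hn
    set q : ℝ := ((univ.filter Q).card : ℝ) / 2 ^ (prs J1).card with hq
    set P : ℝ := ∏ j, ((C' j).card : ℝ) with hP
    have hP0 : 0 ≤ P := Finset.prod_nonneg fun j _ => by positivity
    have h6 : |n - c2 ^ 2 * P| ≤ |n - q * P| + |q - c2 ^ 2| * P := by
      have h7 : n - c2 ^ 2 * P = (n - q * P) + (q - c2 ^ 2) * P := by ring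
      have h8 : |(q - c2 ^ 2) * P| = |q - c2 ^ 2| * P := by rw [abs_mul, abs_of_nonneg hP0]
      rw [h7, ← h8]
      exact abs_add_le _ _
    have h7 : |q - c2 ^ 2| * P ≤ ε * P := mul_le_mul_of_nonneg_right h2' hP0
    have h8 : |n - q * P| ≤ R := h3
    linarith
  -- sum over the labels
  set LL := univ.filter (fun β : ι → Lc S₀ => LM R₀ S₀ J1 β) with hLL
  have hfib : ∀ T : (ι → ℕ) → Prop,
      (((Fintype.piFinset C).filter fun p => NdT R₀ f g S₀ (univ.image p) ∧ T p).card : ℝ) =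
      ∑ β ∈ LL, (((Fintype.piFinset C).filter fun p =>
        (fun i => lc f g S₀ (p i)) = β ∧ T p).card : ℝ) := by
    intro T
    rw [Finset.card_eq_sum_card_fiberwise (f := fun (p : ι → ℕ) (i : ι) => lc f g S₀ (p i))
      (t := LL) (by
        intro p hp
        rw [Finset.mem_coe, Finset.mem_filter] at hp
        rw [Finset.mem_coe, hLL, Finset.mem_filter]
        exact ⟨Finset.mem_univ _, (ndT_iff f g R₀ (hinj p hp.1) (hJ p hp.1)).1 hp.2.1⟩)]
    push_cast
    refine Finset.sum_congr rfl fun β hβ => ?_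
    rw [hLL, Finset.mem_filter] at hβ
    congr 2
    ext p
    simp only [Finset.mem_filter]
    constructor
    · rintro ⟨⟨h3, h4, h4'⟩, h5⟩
      exact ⟨h3, h5, h4'⟩
    · rintro ⟨h3, h4, h5⟩
      refine ⟨⟨h3, ?_, h5⟩, h4⟩
      rw [ndT_iff f g R₀ (hinj p h3) (hJ p h3), h4]
      exact hβ.2
  have hf1 := hfib fun p => GdT f g (S₀ ∪ univ.image p)
  have hf2 := hfib fun _ => True
  simp only [and_true] at hf2
  rw [hf1, hf2, Finset.mul_sum, ← Finset.sum_sub_distrib]
  refine (Finset.abs_sum_le_sum_abs _ _).trans ?_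
  refine (Finset.sum_le_sum fun β hβ => h1 β (Finset.mem_filter.1 hβ).2).trans ?_
  rw [Finset.sum_add_distrib, ← Finset.mul_sum, Finset.sum_const, nsmul_eq_mul]
  have h5 : ((LL.card : ℕ) : ℝ) ≤ 2 ^ ((2 * S₀.card + 2) * Fintype.card ι) := by
    have h6 : LL.card ≤ Fintype.card (ι → Lc S₀) := Finset.card_le_univ _
    rw [Fintype.card_fun, Fintype.card_prod, Fintype.card_prod, Fintype.card_prod,
      Fintype.card_fun, ZMod.card, Fintype.card_coe, ← pow_succ, ← pow_add, ← pow_succ,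
      ← pow_mul] at h6
    have h7 : (S₀.card + (S₀.card + 1) + 1) * Fintype.card ι =
        (2 * S₀.card + 2) * Fintype.card ι := by
      ring
    rw [h7] at h6
    exact_mod_cast h6
  have h6 := mul_le_mul_of_nonneg_right h5 hR0
  rw [pow_add, mul_assoc]
  linarith

end Pool.Agent.R413.SJ.BOX
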