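import Pool.Agent.Y697.JQ.LA
import Pool.Agent.R413.SJ.Stm

/-!
# SJ-LA: the linear algebra for two diagonals, from that for two masks

An index which is added to `U` (with the unknown zero) turns the two masks into the two diagonals.
-/

set_option autoImplicit false
set_option linter.unusedSectionVars false

open scoped Classical

namespace Pool.Agent.R413.SJ.LA

open Finset
open Pool.Agent.Y703.CQ (prs GdA c2 ext)
open Pool.Agent.Y687.JQ (S_JLA GdM)
open Pool.Agent.R413.SJ

section one
variable {U J : Type} [Fintype U] [Fintype J]

/-- the matrix `A` with the additional index -/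
def A' (A : U → U → ZMod 2) (h : U → ZMod 2) : Option U → Option U → ZMod 2
  | some u, some v => A u v
  | some u, none => h u
  | none, _ => 0

/-- the matrix `B` with the additional index -/
def B' (B : U → J → ZMod 2) : Option U → J → ZMod 2
  | some u, l => B u l
  | none, _ => 0

/-- the matrix `C` with the additional index -/
def C' (C : J → U → ZMod 2) (h : J → ZMod 2) : J → Option U → ZMod 2
  | k, some u => C k u
  | k, none => h k

/-- the function with the additional index -/
def F' (f : U → ZMod 2) : Option U → ZMod 2
  | some u => f u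
  | none => 0

/-- the two masks -/
noncomputable def mm (i : Fin 2) : Finset (Option U) :=
  if i = 0 then univ.erase none else univ

theorem sum_erase_none (g : Option U → ZMod 2) : ∑ v ∈ (univ : Finset (Option U)).erase none, g v =
    ∑ u, g (some u) := by
  have h1 := Finset.add_sum_erase (univ : Finset (Option U)) g (mem_univ none)
  rw [Fintype.sum_option] at h1
  exact add_left_cancel h1

theorem mem_map {U1 : Finset U} {o : Option U} :
    o ∈ U1.map Function.Embedding.some ↔ ∃ u ∈ U1, some u = o := by
  rw [Finset.mem_map]
  rfl

theorem some_mem {U1 : Finset U} {u : U} : some u ∈ U1.map Function.Embedding.some ↔ u ∈ U1 := by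
  rw [mem_map]
  constructor
  · rintro ⟨v, hv, h⟩
    rw [Option.some_inj] at h
    exact h ▸ hv
  · intro h
    exact ⟨u, h, rfl⟩

theorem none_notMem {U1 : Finset U} : none ∉ U1.map Function.Embedding.some := by
  rw [mem_map]
  rintro ⟨u, -, h⟩
  cases h

/-- the first mask -/
theorem iff0 (U1 : Finset U) (J1 : Finset J)
    (A : U → U → ZMod 2) (B : U → J → ZMod 2) (C : J → U → ZMod 2) (R : J → J → ZMod 2)
    (f hf : U → ZMod 2) (g hg : J → ZMod 2) :
    GdM (mm 0) (U1.map Function.Embedding.some) J1 (A' A hf) (B' B) (C' C hg) R (F' f) g ↔
      GdA U1 J1 A B C R f g := by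
  have hm : (mm 0 : Finset (Option U)) = univ.erase none := if_pos rfl
  unfold GdM GdA
  rw [hm]
  constructor
  · intro h x y hx hy h1 h2
    have key := h (F' x) y (by
      intro o ho
      cases o with
      | none => rfl
      | some u => exact hx u fun hu => ho (some_mem.2 hu)) (by
      intro o ho
      cases o with
      | none => rfl
      | some u => exact absurd (mem_erase.2 ⟨by simp, mem_univ _⟩) ho) hy (by
      intro o ho _
      cases o with
      | none => exact absurd ho none_notMem
      | some u =>
        rw [sum_erase_none]
        exact h1 u (some_mem.1 ho)) (by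
      intro k hk
      rw [sum_erase_none]
      exact h2 k hk)
    exact ⟨fun u => key.1 (some u), key.2⟩
  · intro h x y hx hxm hy h1 h2
    have hn : x none = 0 := hx none none_notMem
    have key := h (fun u => x (some u)) y (by
      intro u hu
      exact hx _ fun h' => hu (some_mem.1 h')) hy (by
      intro u hu
      have h3 := h1 (some u) (some_mem.2 hu) (mem_erase.2 ⟨by simp, mem_univ _⟩)
      rw [sum_erase_none] at h3
      exact h3) (by
      intro k hk
      have h3 := h2 k hk
      rw [sum_erase_none] at h3
      exact h3)
    refine ⟨fun o => ?_, key.2⟩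
    cases o with
    | none => exact hn
    | some u => exact key.1 u

/-- the second mask -/
theorem iff1 (U1 : Finset U) (J1 : Finset J)
    (A : U → U → ZMod 2) (B : U → J → ZMod 2) (C : J → U → ZMod 2) (R : J → J → ZMod 2)
    (f hf : U → ZMod 2) (g hg : J → ZMod 2) :
    GdM (mm 1) (U1.map Function.Embedding.some) J1 (A' A hf) (B' B) (C' C hg) R (F' f) g ↔
      GdA U1 J1 A B C R (fun u => f u + hf u) (fun k => g k + hg k) := by
  have hm : (mm 1 : Finset (Option U)) = univ := if_neg (by decide)
  unfold GdM GdA
  rw [hm]
  constructor
  · intro h x y hx hy h1 h2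
    have key := h (F' x) y (by
      intro o ho
      cases o with
      | none => rfl
      | some u => exact hx u fun hu => ho (some_mem.2 hu)) (by
      intro o ho
      exact absurd (mem_univ _) ho) hy (by
      intro o ho _
      cases o with
      | none => exact absurd ho none_notMem
      | some u =>
        rw [Fintype.sum_option]
        have h3 : ∑ v, A u v * (x v + x u) + ∑ l, B u l * (y l + x u) + (f u + hf u) * x u = 0 :=
          h1 u (some_mem.1 ho)
        show hf u * (0 + x u) + ∑ v, A u v * (x v + x u) + ∑ l, B u l * (y l + x u) + f u * x u = 0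
        linear_combination h3) (by
      intro k hk
      rw [Fintype.sum_option]
      have h3 : ∑ u, C k u * (x u + y k) + ∑ l, R k l * (y l + y k) + (g k + hg k) * y k = 0 :=
        h2 k hk
      show hg k * (0 + y k) + ∑ u, C k u * (x u + y k) + ∑ l, R k l * (y l + y k) + g k * y k = 0
      linear_combination h3)
    exact ⟨fun u => key.1 (some u), key.2⟩
  · intro h x y hx hxm hy h1 h2
    have hn : x none = 0 := hx none none_notMem
    have key := h (fun u => x (some u)) y (by
      intro u hu
      exact hx _ fun h' => hu (some_mem.1 h')) hy (by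
      intro u hu
      have h3 := h1 (some u) (some_mem.2 hu) (mem_univ _)
      rw [Fintype.sum_option, hn] at h3
      have h4 : hf u * (0 + x (some u)) + ∑ v, A u v * (x (some v) + x (some u)) +
        ∑ l, B u l * (y l + x (some u)) + f u * x (some u) = 0 := h3
      rw [← h4]
      ring) (by
      intro k hk
      have h3 := h2 k hk
      rw [Fintype.sum_option, hn] at h3
      have h4 : hg k * (0 + y k) + ∑ u, C k u * (x (some u) + y k) + ∑ l, R k l * (y l + y k) +
        g k * y k = 0 := h3
      rw [← h4]
      ring)
    refine ⟨fun o => ?_, key.2⟩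
    cases o with
    | none => exact hn
    | some u => exact key.1 u

end one

/-- **SJ-LA** -/
theorem t_TLA : S_TLA := by
  intro ε hε
  obtain ⟨R, hR⟩ := Pool.Agent.Y697.JQ.t_JLA 2 ε hε
  refine ⟨R, ?_⟩
  intro U J _ _ _ U1 J1 hJ A B C f f' g g' hA hB hC h1
  have hc2 : ∀ x y : ZMod 2, x + (x + y) = y := by decide
  have hne : ∀ x y : ZMod 2, x + y ≠ 0 ↔ x ≠ y := by decide
  have h0 : 2 * U1.card + R ≤ J1.card := h1.trans (card_filter_le _ _)
  have hcard : (U1.map Function.Embedding.some).card = U1.card := card_map _
  have h3 := hR (Option U) J (U1.map Function.Embedding.some) J1 hJ mm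
    (A' A fun u => f u + f' u) (B' B) (C' C fun k => g k + g' k) (F' f) g
    (by
      intro u hu v hv
      rw [mem_map] at hu hv
      obtain ⟨u, hu, rfl⟩ := hu
      obtain ⟨v, hv, rfl⟩ := hv
      exact hA u hu v hv)
    (by
      intro u hu k hk
      rw [mem_map] at hu
      obtain ⟨u, hu, rfl⟩ := hu
      exact hB u hu k hk)
    (by
      intro w hw0 hw
      have hn : w none = 0 := hw0 none none_notMem
      obtain ⟨o, ho⟩ := hw
      have hex : ∃ u, w (some u) ≠ 0 := by
        cases o with
        | none => exact absurd hn ho
        | some u => exact ⟨u, ho⟩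
      obtain ⟨k, hk, hk2⟩ := hC (fun u => w (some u))
        (fun u hu => hw0 _ fun h => hu (some_mem.1 h)) hex
      refine ⟨k, hk, ?_⟩
      rw [Fintype.sum_option, hn, zero_mul, zero_add]
      exact hk2)
    (by rw [hcard]; exact h0)
    (by
      intro i j hij
      rw [hcard]
      have hmain : ∀ k, ∑ u ∈ (mm 0 : Finset (Option U)), C' C (fun k => g k + g' k) k u +
          ∑ u ∈ (mm 1 : Finset (Option U)), C' C (fun k => g k + g' k) k u = g k + g' k := by
        intro k
        have hm0 : (mm 0 : Finset (Option U)) = univ.erase none := if_pos rfl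
        have hm1 : (mm 1 : Finset (Option U)) = univ := if_neg (by decide)
        rw [hm0, hm1, sum_erase_none, Fintype.sum_option]
        show ∑ u, C k u + (g k + g' k + ∑ u, C k u) = g k + g' k
        have := hc2 (∑ u, C k u) (g k + g' k)
        rw [← add_comm (∑ u, C k u) (g k + g' k)]
        exact this
      have hset : (J1.filter fun k => ∑ u ∈ (mm i : Finset (Option U)),
          C' C (fun k => g k + g' k) k u + ∑ u ∈ (mm j : Finset (Option U)),
          C' C (fun k => g k + g' k) k u ≠ 0) = J1.filter fun k => g k ≠ g' k := by
        refine filter_congr fun k _ => ?_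
        rw [← hne (g k) (g' k), ← hmain k]
        have hi : (i = 0 ∧ j = 1) ∨ (i = 1 ∧ j = 0) := by
          revert hij i j
          decide
        rcases hi with ⟨rfl, rfl⟩ | ⟨rfl, rfl⟩
        · exact Iff.rfl
        · rw [add_comm]
      rw [hset]
      exact h1)
  have h4 : (univ.filter fun α : prs J1 → ZMod 2 => GdA U1 J1 A B C (ext α) f g ∧
      GdA U1 J1 A B C (ext α) f' g') =
      univ.filter fun α : prs J1 → ZMod 2 => ∀ i : Fin 2, GdM (mm i)
        (U1.map Function.Embedding.some) J1 (A' A fun u => f u + f' u) (B' B)
        (C' C fun k => g k + g' k) (ext α) (F' f) g := by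
    refine filter_congr fun α _ => ?_
    rw [Fin.forall_fin_two, iff0, iff1]
    have e1 : (fun u => f u + (f u + f' u)) = f' := funext fun u => hc2 _ _
    have e2 : (fun k => g k + (g k + g' k)) = g' := funext fun k => hc2 _ _
    rw [e1, e2]
  rw [h4]
  exact h3

end Pool.Agent.R413.SJ.LA
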