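import Pool.Agent.R413.SJ.Stm
import Pool.Agent.Y514.CQ.NS

/-! # SJ-NS: translation between the numbers `D` and the sets of primes -/

set_option autoImplicit false

open scoped Classical

namespace Pool.Agent.R413.SJ.NS

open Finset Pool.Agent.Y703.CQ Pool.Agent.R413.SJ

theorem t_TNS : S_TNS := by
  intro hdq I K f g hOk hfg
  refine (hdq I K f g hOk hfg).congr fun X => ?_
  have e1 := Pool.Agent.Y514.CQ.card_eq I K X (GdT f g)
  have e2 := Pool.Agent.Y514.CQ.card_eq I K X (fun _ => True)
  rw [Finset.filter_true] at e2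
  simp only [and_true] at e2
  rw [← e1, ← e2]

end Pool.Agent.R413.SJ.NS
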