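import Pool.Agent.R413.SJ.Asy
import Pool.Agent.Y703.CQ.Fin
import Pool.Agent.R413.SJ.LA
import Pool.Agent.R413.SJ.BOX
import Pool.Agent.R413.SJ.KEY
import Pool.Agent.R413.SJ.FEW
import Pool.Agent.R413.SJ.NS

/-!
# The joint exact proportion for two diagonals

After project JQ (helpers 697, 362, 405, 514 and 687) and project CQ (see `Pool.Agent.Y703.CQ.Fin`).
-/

set_option autoImplicit false

namespace Pool.Agent.R413.SJ

theorem t_TDQ_all : S_TDQ :=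
  t_TDQ Pool.Agent.Y710.CQ.t_BIL Pool.Agent.Y356.CQ.t_EQ LA.t_TLA
    BOX.t_TBOX KEY.t_TKEY Pool.Agent.Y391.CQ.t_CNT
    Pool.Agent.Y488.CX.t_SIE Pool.Agent.Y475.CQ.t_HAL Pool.Agent.Y949.CQ.t_BAD
    Pool.Agent.Y362.CQ.t_FEW FEW.t_TFEW
    Pool.Agent.Y405.CQ.t_MER Pool.Agent.Y302.CQ.t_CHE Pool.Agent.Y302.CQ.t_LOW
    Pool.Agent.Y948.CQ.t_C2

theorem t_TDEN : S_TDEN := NS.t_TNS t_TDQ_all

end Pool.Agent.R413.SJ
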