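import Pool.Agent.H755R5.Kum.Stmts
import Pool.Agent.H169R3.Kum.C
import Pool.Agent.H135R3.KumA

/-!
# Roots modulo the primes of an irreducible polynomial

After `Pool/Agent/H169R3/Kum/C.lean` (project KUM of helpers 755, 169, 135).
-/

set_option autoImplicit false

namespace Pool.Agent.R413.SJ

open Pool.Agent.H755R5.Kum Pool.Agent.H169R3.Kum
open NumberField Polynomial

theorem root_ideals (g : ℤ[X]) (hm : g.Monic)
    (hirr' : Irreducible (g.map (Int.castRingHom ℚ))) :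
    ∃ (E : Type) (_ : Field E) (_ : NumberField E) (m : ℕ) (P : (r : ℕ) → ZMod r → Ideal (𝓞 E)),
    0 < m ∧ ∀ r : ℕ, r.Prime → ¬ r ∣ m → ∀ t : ZMod r,
      (g.map (Int.castRingHom (ZMod r))).eval t = 0 →
      (P r t).IsMaximal ∧ Ideal.absNorm (P r t) = r ∧
        ∀ t' : ZMod r, (g.map (Int.castRingHom (ZMod r))).eval t' = 0 → P r t = P r t' → t = t' := by
  set f : ℚ[X] := g.map (Int.castRingHom ℚ) with hf
  have hirr : Irreducible f := hirr'
  have : Fact (Irreducible f) := ⟨hirr⟩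
  let B : PowerBasis ℚ (AdjoinRoot f) := AdjoinRoot.powerBasis hirr.ne_zero
  have : FiniteDimensional ℚ (AdjoinRoot f) := B.finite
  have : CharZero (AdjoinRoot f) := charZero_of_injective_algebraMap (algebraMap ℚ _).injective
  have : NumberField (AdjoinRoot f) := { to_charZero := inferInstance, to_finiteDimensional := inferInstance }
  have hroot : IsIntegral ℤ (AdjoinRoot.root f) := by
    refine ⟨g, hm, ?_⟩
    have h1 := AdjoinRoot.eval₂_root f
    rw [hf, eval₂_map] at h1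
    rw [← h1]
    congr 1
  let θ : 𝓞 (AdjoinRoot f) := ⟨AdjoinRoot.root f, hroot⟩
  have hBgen : B.gen = AdjoinRoot.root f := rfl
  -- the discriminant
  have hDint : IsIntegral ℤ (Algebra.discr ℚ B.basis) := by
    refine Algebra.discr_isIntegral ℚ fun i => ?_
    rw [B.basis_eq_pow, hBgen]
    exact hroot.pow _
  obtain ⟨d, hd⟩ := IsIntegrallyClosed.isIntegral_iff.1 hDint
  have hd0 : d ≠ 0 := by
    rintro rfl
    exact Algebra.discr_not_zero_of_basis ℚ B.basis (by rw [← hd]; simp)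
  have haev : ∀ h : ℤ[X], ((aeval θ h : 𝓞 (AdjoinRoot f)) : AdjoinRoot f) =
      aeval (AdjoinRoot.root f) h := by
    intro h
    have := Polynomial.aeval_algebraMap_apply (AdjoinRoot f) θ h
    exact this.symm
  have H1 : ∀ x : 𝓞 (AdjoinRoot f), ∃ h : ℤ[X], aeval θ h = (d : 𝓞 (AdjoinRoot f)) * x := by
    intro x
    have h1 := Algebra.discr_mul_isIntegral_mem_adjoin (R := ℤ) (K := ℚ) (B := B)
      (by rw [hBgen]; exact hroot) (NumberField.RingOfIntegers.isIntegral_coe x)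
    rw [hBgen, Algebra.adjoin_singleton_eq_range_aeval] at h1
    obtain ⟨h, hg⟩ := h1
    refine ⟨h, ?_⟩
    apply NumberField.RingOfIntegers.coe_injective
    have h2 : aeval (AdjoinRoot.root f) h = Algebra.discr ℚ B.basis • (x : AdjoinRoot f) := hg
    change ((aeval θ h : 𝓞 (AdjoinRoot f)) : AdjoinRoot f) = _
    rw [haev, h2, ← hd, Algebra.smul_def]
    simp
  have H2 : ∀ h : ℤ[X], aeval θ h = 0 → g ∣ h := by
    intro h hh
    have h1 : aeval (AdjoinRoot.root f) h = 0 := by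
      rw [← haev, hh]; simp
    have h2 : AdjoinRoot.mk f (h.map (Int.castRingHom ℚ)) = 0 := by
      rw [← AdjoinRoot.aeval_eq]
      have := Polynomial.aeval_map_algebraMap ℚ (AdjoinRoot.root f) h
      rw [← h1, ← this]
      rfl
    rw [AdjoinRoot.mk_eq_zero] at h2
    exact (Polynomial.map_dvd_map _ Int.cast_injective hm).1 h2
  classical
  let Pr : (r : ℕ) → ZMod r → Ideal (𝓞 (AdjoinRoot f)) := fun r t =>
    if hc : ∃ P : Ideal (𝓞 (AdjoinRoot f)), P.IsMaximal ∧ Ideal.absNorm P = r ∧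
      θ - ((t.val : ℤ) : 𝓞 (AdjoinRoot f)) ∈ P ∧ ∀ j : ℤ, (j : 𝓞 (AdjoinRoot f)) ∈ P → (r : ℤ) ∣ j
    then hc.choose else ⊤
  have hPr : ∀ r : ℕ, r.Prime → ¬ r ∣ d.natAbs → ∀ t : ZMod r,
      (g.map (Int.castRingHom (ZMod r))).eval t = 0 →
      (Pr r t).IsMaximal ∧ Ideal.absNorm (Pr r t) = r ∧
      θ - ((t.val : ℤ) : 𝓞 (AdjoinRoot f)) ∈ Pr r t ∧
      ∀ j : ℤ, (j : 𝓞 (AdjoinRoot f)) ∈ Pr r t → (r : ℤ) ∣ j := by
    intro r hr hrd t ht
    have : NeZero r := ⟨hr.ne_zero⟩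
    have hrd' : ¬ (r : ℤ) ∣ d := by
      intro hcon
      exact hrd (Int.natCast_dvd.1 hcon)
    have hk : (r : ℤ) ∣ g.eval (t.val : ℤ) := by
      rw [← ZMod.intCast_zmod_eq_zero_iff_dvd]
      have h1 := Polynomial.eval_map_apply (Int.castRingHom (ZMod r)) (p := g) (t.val : ℤ)
      have h2 : (Int.castRingHom (ZMod r)) ((t.val : ℕ) : ℤ) = t := by simp
      rw [h2, ht] at h1
      exact h1.symm
    have hc := exists_ideal θ g d H1 H2 r hr hrd' (t.val : ℤ) hk
    have : Pr r t = hc.choose := dif_pos hc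
    rw [this]
    exact hc.choose_spec
  refine ⟨AdjoinRoot f, inferInstance, inferInstance, d.natAbs, Pr,
    Int.natAbs_pos.2 hd0, fun r hr hrd t ht => ?_⟩
  have : NeZero r := ⟨hr.ne_zero⟩
  obtain ⟨h1, h2, h3, h4⟩ := hPr r hr hrd t ht
  refine ⟨h1, h2, fun t' ht' heq => ?_⟩
  obtain ⟨-, -, h3', -⟩ := hPr r hr hrd t' ht'
  rw [← heq] at h3'
  have h5 : (((t.val : ℤ) - (t'.val : ℤ) : ℤ) : 𝓞 (AdjoinRoot f)) ∈ Pr r t := by
    have := (Pr r t).sub_mem h3' h3
    push_cast at this ⊢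
    convert this using 1
    ring
  have h6 := h4 _ h5
  rw [← ZMod.intCast_zmod_eq_zero_iff_dvd] at h6
  push_cast at h6
  rw [ZMod.natCast_zmod_val, ZMod.natCast_zmod_val] at h6
  exact sub_eq_zero.1 h6

/-- the number of roots modulo `r` -/
noncomputable def nrt (g : ℤ[X]) (r : ℕ) : ℕ :=
  Nat.card {t : ZMod r // (g.map (Int.castRingHom (ZMod r))).eval t = 0}

/-- the prime ideal theorem, upper bound, for the roots of a polynomial modulo the primes -/
theorem root_sum (g : ℤ[X]) (hm : g.Monic) (hirr : Irreducible (g.map (Int.castRingHom ℚ))) :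
    ∃ (m : ℕ) (C : ℝ), 0 < m ∧ ∀ S : Finset ℕ, (∀ r ∈ S, r.Prime ∧ ¬ r ∣ m) →
      ∀ s : ℝ, 1 < s → s < 2 →
      ∑ r ∈ S, (nrt g r : ℝ) * (r : ℝ) ^ (-s) ≤ Real.log (1 / (s - 1)) + C := by
  classical
  obtain ⟨E, i1, i2, m, P, h0, hP⟩ := root_ideals g hm hirr
  obtain ⟨C, hC⟩ := Pool.Agent.H135R3.KumA.taskA E
  refine ⟨m, C, h0, fun S hS s h1 h2 => ?_⟩
  let F : ℕ → Finset (Ideal (𝓞 E)) := fun r =>
    if h : {t : ZMod r | (g.map (Int.castRingHom (ZMod r))).eval t = 0}.Finite then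
      h.toFinset.image (P r) else ∅
  have hfin : ∀ r ∈ S, {t : ZMod r | (g.map (Int.castRingHom (ZMod r))).eval t = 0}.Finite := by
    intro r hr
    have : NeZero r := ⟨(hS r hr).1.ne_zero⟩
    exact Set.toFinite _
  have hF : ∀ r (hr : r ∈ S), F r = (hfin r hr).toFinset.image (P r) := fun r hr =>
    dif_pos (hfin r hr)
  have hmem : ∀ r ∈ S, ∀ I ∈ F r, I.IsMaximal ∧ Ideal.absNorm I = r := by
    intro r hr I hI
    rw [hF r hr, Finset.mem_image] at hI
    obtain ⟨t, ht, rfl⟩ := hI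
    have ht' := (hfin r hr).mem_toFinset.1 ht
    exact ⟨(hP r (hS r hr).1 (hS r hr).2 t ht').1, (hP r (hS r hr).1 (hS r hr).2 t ht').2.1⟩
  have hdis : (S : Set ℕ).PairwiseDisjoint F := by
    intro r hr r' hr' hne
    rw [Function.onFun, Finset.disjoint_left]
    intro I h3 h4
    exact hne ((hmem r hr I h3).2.symm.trans (hmem r' hr' I h4).2)
  have key : ∑ I ∈ S.biUnion F, ((Ideal.absNorm I : ℕ) : ℝ) ^ (-s) =
      ∑ r ∈ S, (nrt g r : ℝ) * (r : ℝ) ^ (-s) := by
    rw [Finset.sum_biUnion hdis]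
    refine Finset.sum_congr rfl fun r hr => ?_
    have h3 : ∑ I ∈ F r, ((Ideal.absNorm I : ℕ) : ℝ) ^ (-s) = ∑ I ∈ F r, (r : ℝ) ^ (-s) :=
      Finset.sum_congr rfl fun I hI => by rw [(hmem r hr I hI).2]
    have h4 : (F r).card = nrt g r := by
      rw [hF r hr, Finset.card_image_of_injOn]
      · exact (Nat.card_eq_card_finite_toFinset (hfin r hr)).symm
      · intro t ht t' ht' he
        have e1 := (hfin r hr).mem_toFinset.1 (Finset.mem_coe.1 ht)
        have e2 := (hfin r hr).mem_toFinset.1 (Finset.mem_coe.1 ht')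
        exact (hP r (hS r hr).1 (hS r hr).2 t e1).2.2 t' e2 he
    rw [h3, Finset.sum_const, h4, nsmul_eq_mul]
  rw [← key]
  refine hC _ (fun I hI => ?_) s h1 h2
  obtain ⟨r, hr, h3⟩ := Finset.mem_biUnion.1 hI
  exact (hmem r hr I h3).1

end Pool.Agent.R413.SJ
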