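import Pool.Agent.R413.SJ.AlgM
import Pool.Agent.Y703.CQ.Cor
import Pool.Agent.Y698.SG.Wc

/-!
# The two diagonals differ at many primes
-/

set_option autoImplicit false

open scoped Classical

namespace Pool.Agent.R413.SJ

open Finset
open Pool.Agent.Y703.CQ (Sp ff)
open Pool.Agent.Y698.SG (n4)
open Pool.Agent.Y687 (NN)

theorem rt_iff {p : ℕ} (hp : Sp p) : Pool.Agent.Y700.Rt p 1 ↔ ¬ 8 ∣ NN 1 p := by
  have hR := Pool.Agent.Z701.f_RTE p hp ∅ (by simp)
  have e4 : Pool.Agent.Z700.pr ∅ = 1 := by unfold Pool.Agent.Z700.pr; simp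
  rw [e4] at hR
  exact hR

theorem al_of {p : ℕ} (hp : Sp p) (h : ff p = n4 p) : Al p := by
  refine al_core hp ?_
  rw [rt_iff hp, ← h]
  unfold Pool.Agent.Y703.CQ.ff
  split_ifs with h4
  · simp [h4]
  · simp [h4]

/-- **the two diagonals** -/
theorem merD : MerD ff n4 := merD_of fun _ hp h => al_of hp h

end Pool.Agent.R413.SJ
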