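import Pool.Agent.R413.SJ.Qrt
import Pool.Agent.Erdos456.Mertens
import Pool.Agent.Y405.CQ.MER

/-!
# The sum of `1 / p` over the primes at which `(-7 + √-7) / 2` is a square
-/

set_option autoImplicit false

open scoped Classical

namespace Pool.Agent.R413.SJ

open Finset
open Pool.Agent.Y703.CQ (Sp)

/-- split in `ℚ(√-7)`, odd, not `1` modulo `8` -/
def Wq (p : ℕ) : Prop := p.Prime ∧ p % 2 = 1 ∧ p % 8 ≠ 1 ∧ (p % 7 = 1 ∨ p % 7 = 2 ∨ p % 7 = 4)

theorem base1 : ∃ (M : ℕ) (C : ℝ), 0 < M ∧ ∀ S : Finset ℕ, (∀ r ∈ S, r.Prime ∧ ¬ r ∣ M) →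
    ∀ s : ℝ, 1 < s → s < 2 →
    ∑ r ∈ S, (tot r : ℝ) * (r : ℝ) ^ (-s) ≤ 4 * Real.log (1 / (s - 1)) + C := by
  obtain ⟨m1, C1, k1, h1⟩ := root_sum (Ei 1) (Ei_monic 1) (Ei_irr (by norm_num))
  obtain ⟨m2, C2, k2, h2⟩ := root_sum (Ei (-1)) (Ei_monic (-1)) (Ei_irr (by norm_num))
  obtain ⟨m3, C3, k3, h3⟩ := root_sum (Ei 2) (Ei_monic 2) (Ei_irr (by norm_num))
  obtain ⟨m4, C4, k4, h4⟩ := root_sum (Ei (-2)) (Ei_monic (-2)) (Ei_irr (by norm_num))
  refine ⟨m1 * m2 * m3 * m4, C1 + C2 + C3 + C4, by positivity, fun S hS s hs1 hs2 => ?_⟩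
  have d1 := h1 S (fun r hr => ⟨(hS r hr).1, fun h => (hS r hr).2 (by
    exact h.trans ⟨m2 * m3 * m4, by ring⟩)⟩) s hs1 hs2
  have d2 := h2 S (fun r hr => ⟨(hS r hr).1, fun h => (hS r hr).2 (by
    exact h.trans ⟨m1 * m3 * m4, by ring⟩)⟩) s hs1 hs2
  have d3 := h3 S (fun r hr => ⟨(hS r hr).1, fun h => (hS r hr).2 (by
    exact h.trans ⟨m1 * m2 * m4, by ring⟩)⟩) s hs1 hs2
  have d4 := h4 S (fun r hr => ⟨(hS r hr).1, fun h => (hS r hr).2 (by
    exact h.trans ⟨m1 * m2 * m3, by ring⟩)⟩) s hs1 hs2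
  have e : ∑ r ∈ S, (tot r : ℝ) * (r : ℝ) ^ (-s) =
      ∑ r ∈ S, (nrt (Ei 1) r : ℝ) * (r : ℝ) ^ (-s) +
      ∑ r ∈ S, (nrt (Ei (-1)) r : ℝ) * (r : ℝ) ^ (-s) +
      ∑ r ∈ S, (nrt (Ei 2) r : ℝ) * (r : ℝ) ^ (-s) +
      ∑ r ∈ S, (nrt (Ei (-2)) r : ℝ) * (r : ℝ) ^ (-s) := by
    rw [← Finset.sum_add_distrib, ← Finset.sum_add_distrib, ← Finset.sum_add_distrib]
    refine Finset.sum_congr rfl fun r _ => ?_
    unfold tot
    push_cast
    ring
  rw [e]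
  linarith

theorem base2 : ∃ (M : ℕ) (C : ℝ), 0 < M ∧ ∀ S : Finset ℕ, (∀ r ∈ S, r.Prime ∧ ¬ r ∣ M) →
    ∀ s : ℝ, 1 < s → s < 2 →
    16 * ∑ r ∈ S.filter (fun r => Sp r ∧ Al r), (r : ℝ) ^ (-s) +
      8 * ∑ r ∈ S.filter Wq, (r : ℝ) ^ (-s) ≤ 4 * Real.log (1 / (s - 1)) + C := by
  obtain ⟨M, C, h0, h⟩ := base1
  refine ⟨M, C, h0, fun S hS s hs1 hs2 => le_trans ?_ (h S hS s hs1 hs2)⟩
  rw [Finset.mul_sum, Finset.mul_sum, Finset.sum_filter, Finset.sum_filter,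
    ← Finset.sum_add_distrib]
  refine Finset.sum_le_sum fun r hr => ?_
  have hnn : (0 : ℝ) ≤ (r : ℝ) ^ (-s) := Real.rpow_nonneg (Nat.cast_nonneg _) _
  by_cases h1 : Sp r ∧ Al r
  · have h2 : ¬ Wq r := fun h => h.2.2.1 h1.1.2.1
    rw [if_pos h1, if_neg h2, add_zero, tot_ge16 h1.1 h1.2]
    norm_num
  · rw [if_neg h1, zero_add]
    by_cases h2 : Wq r
    · have h3 : tot r = 8 := tot_ge8 h2.1 (by rintro rfl; exact absurd h2.2.1 (by norm_num))
        h2.2.2.2 h2.2.2.1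
      rw [if_pos h2, h3]
      norm_num
    · rw [if_neg h2]
      positivity

theorem rp_ge {r : ℕ} (hr : 1 ≤ r) {L : ℝ} (hL : 0 < L) :
    1 / (r : ℝ) - Real.log r / r / L ≤ (r : ℝ) ^ (-(1 + 1 / L)) := by
  have h0 : (0 : ℝ) < r := by exact_mod_cast hr
  have h1 : (r : ℝ) ^ (-(1 + 1 / L)) = (1 / (r : ℝ)) * Real.exp (-(Real.log r / L)) := by
    rw [Real.rpow_def_of_pos h0, show Real.log r * -(1 + 1 / L) = -Real.log r + -(Real.log r / L) by
      ring, Real.exp_add, Real.exp_neg, Real.exp_log h0, one_div]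
  rw [h1]
  have h2 := Real.add_one_le_exp (-(Real.log r / L))
  have h3 : 1 / (r : ℝ) - Real.log r / r / L = 1 / r * (-(Real.log r / L) + 1) := by ring
  rw [h3]
  exact mul_le_mul_of_nonneg_left h2 (by positivity)

theorem log_ge_one {y : ℕ} (hy : 3 ≤ y) : 1 < Real.log y := by
  have h1 : (3 : ℝ) ≤ y := by exact_mod_cast hy
  rw [Real.lt_log_iff_exp_lt (by linarith)]
  have := Real.exp_one_lt_d9
  linarith

theorem sum_rp : ∃ C : ℝ, ∀ y : ℕ, 3 ≤ y → ∀ S : Finset ℕ, (∀ r ∈ S, r.Prime ∧ r ≤ y) →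
    ∑ r ∈ S, (1 : ℝ) / r ≤ ∑ r ∈ S, (r : ℝ) ^ (-(1 + 1 / Real.log y)) + C := by
  obtain ⟨C, hC⟩ := Pool.Agent.Erdos456.Mert.mertens_log
  refine ⟨1 + |C|, fun y hy S hS => ?_⟩
  have hL := log_ge_one hy
  have h1 : ∑ r ∈ S, (1 : ℝ) / r - ∑ r ∈ S, Real.log r / r / Real.log y ≤
      ∑ r ∈ S, (r : ℝ) ^ (-(1 + 1 / Real.log y)) := by
    rw [← Finset.sum_sub_distrib]
    exact Finset.sum_le_sum fun r hr => rp_ge (hS r hr).1.one_le (by linarith)
  have h2 : ∑ r ∈ S, Real.log r / r ≤ Real.log y + |C| := by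
    have h3 : ∑ r ∈ S, Real.log r / r ≤
        ∑ r ∈ (Finset.Icc 1 y).filter Nat.Prime, Real.log r / r := by
      refine Finset.sum_le_sum_of_subset_of_nonneg (fun r hr => ?_) fun r _ _ => ?_
      · rw [Finset.mem_filter, Finset.mem_Icc]
        exact ⟨⟨(hS r hr).1.one_le, (hS r hr).2⟩, (hS r hr).1⟩
      · exact div_nonneg (Real.log_natCast_nonneg r) (Nat.cast_nonneg r)
    have h4 := (abs_le.1 (hC y (by omega))).2
    have h5 := le_abs_self C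
    linarith
  have h6 : ∑ r ∈ S, Real.log r / r / Real.log y ≤ 1 + |C| := by
    rw [← Finset.sum_div, div_le_iff₀ (by linarith)]
    have h7 : |C| ≤ |C| * Real.log y := le_mul_of_one_le_right (abs_nonneg C) hL.le
    linarith
  linarith

/-- Mertens for a set of classes modulo `56` -/
theorem mer_cls (cls : Finset ℕ) (hc : ∀ a ∈ cls, a < 56 ∧ a.Coprime 56) :
    ∃ C : ℝ, ∀ y : ℕ, 3 ≤ y →
    |∑ p ∈ (range (y + 1)).filter (fun p => p.Prime ∧ p % 56 ∈ cls), (1 : ℝ) / p -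
      (cls.card : ℝ) / 24 * Real.log (Real.log y)| ≤ C := by
  have h1 : ∀ a : ℕ, ∃ C : ℝ, a ∈ cls → ∀ y : ℕ, 3 ≤ y →
      |∑ p ∈ (range (y + 1)).filter (fun p => p.Prime ∧ p % 56 = a), (1 : ℝ) / p -
        1 / 24 * Real.log (Real.log y)| ≤ C := by
    intro a
    by_cases ha : a ∈ cls
    · obtain ⟨C, hC⟩ := Pool.Agent.Y405.CQ.t_MER a (hc a ha).2
      refine ⟨C, fun _ y hy => ?_⟩
      have := hC y hy
      rw [Nat.mod_eq_of_lt (hc a ha).1] at this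
      exact this
    · exact ⟨0, fun h => absurd h ha⟩
  choose Cf hCf using h1
  refine ⟨∑ a ∈ cls, Cf a, fun y hy => ?_⟩
  have e1 : ∑ p ∈ (range (y + 1)).filter (fun p => p.Prime ∧ p % 56 ∈ cls), (1 : ℝ) / p =
      ∑ a ∈ cls, ∑ p ∈ (range (y + 1)).filter (fun p => p.Prime ∧ p % 56 = a), (1 : ℝ) / p := by
    rw [← Finset.sum_fiberwise_of_maps_to (g := fun p : ℕ => p % 56) (t := cls)
      (fun p hp => (Finset.mem_filter.1 hp).2.2)]
    refine Finset.sum_congr rfl fun a ha => ?_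
    rw [Finset.filter_filter]
    refine Finset.sum_congr (Finset.filter_congr fun p _ => ?_) fun _ _ => rfl
    constructor
    · rintro ⟨⟨h3, h4⟩, h5⟩
      exact ⟨h3, h5⟩
    · rintro ⟨h3, h5⟩
      exact ⟨⟨h3, h5 ▸ ha⟩, h5⟩
  have e2 : (cls.card : ℝ) / 24 * Real.log (Real.log y) =
      ∑ a ∈ cls, (1 : ℝ) / 24 * Real.log (Real.log y) := by
    rw [Finset.sum_const, nsmul_eq_mul]
    ring
  rw [e1, e2, ← Finset.sum_sub_distrib]
  exact (Finset.abs_sum_le_sum_abs _ _).trans (Finset.sum_le_sum fun a ha => hCf a ha y hy)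

/-- the classes of the primes `Wq` -/
def clsW : Finset ℕ := {11, 43, 51, 29, 37, 53, 15, 23, 39}

/-- the classes of the primes `Sp` -/
def clsS : Finset ℕ := {1, 9, 25}

theorem wq_iff (p : ℕ) : Wq p ↔ p.Prime ∧ p % 56 ∈ clsW := by
  unfold Wq clsW
  simp only [Finset.mem_insert, Finset.mem_singleton]
  refine and_congr_right fun _ => ?_
  omega

theorem sp_iff (p : ℕ) : Sp p ↔ p.Prime ∧ p % 56 ∈ clsS := by
  unfold Pool.Agent.Y703.CQ.Sp clsS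
  simp only [Finset.mem_insert, Finset.mem_singleton]
  refine and_congr_right fun _ => ?_
  omega

theorem merW : ∃ C : ℝ, ∀ y : ℕ, 3 ≤ y →
    |∑ p ∈ (range (y + 1)).filter Wq, (1 : ℝ) / p - 9 / 24 * Real.log (Real.log y)| ≤ C := by
  obtain ⟨C, hC⟩ := mer_cls clsW (by decide)
  refine ⟨C, fun y hy => ?_⟩
  have h := hC y hy
  have e : clsW.card = 9 := by decide
  rw [e] at h
  have e2 : (range (y + 1)).filter Wq = (range (y + 1)).filter (fun p => p.Prime ∧ p % 56 ∈ clsW) :=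
    Finset.filter_congr fun p _ => wq_iff p
  rw [e2]
  exact_mod_cast h

theorem merS : ∃ C : ℝ, ∀ y : ℕ, 3 ≤ y →
    |∑ p ∈ (range (y + 1)).filter Sp, (1 : ℝ) / p - 3 / 24 * Real.log (Real.log y)| ≤ C := by
  obtain ⟨C, hC⟩ := mer_cls clsS (by decide)
  refine ⟨C, fun y hy => ?_⟩
  have h := hC y hy
  have e : clsS.card = 3 := by decide
  rw [e] at h
  have e2 : (range (y + 1)).filter Sp = (range (y + 1)).filter (fun p => p.Prime ∧ p % 56 ∈ clsS) :=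
    Finset.filter_congr fun p _ => sp_iff p
  rw [e2]
  exact_mod_cast h

/-- removing the divisors of `M` -/
theorem rem_M {M : ℕ} (hM : 0 < M) (S : Finset ℕ) (hS : ∀ r ∈ S, r.Prime) :
    ∑ r ∈ S, (1 : ℝ) / r ≤ ∑ r ∈ S.filter (fun r => ¬ r ∣ M), (1 : ℝ) / r + M := by
  rw [← Finset.sum_filter_add_sum_filter_not S (fun r => ¬ r ∣ M)]
  gcongr
  have h1 : ∑ r ∈ S.filter (fun r => ¬ ¬ r ∣ M), (1 : ℝ) / r ≤
      ∑ r ∈ S.filter (fun r => ¬ ¬ r ∣ M), (1 : ℝ) := by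
    refine Finset.sum_le_sum fun r hr => ?_
    have h2 := (hS r (Finset.mem_filter.1 hr).1).one_le
    have h3 : (1 : ℝ) ≤ r := by exact_mod_cast h2
    rw [div_le_one (by linarith)]
    exact h3
  refine h1.trans ?_
  rw [Finset.sum_const, nsmul_eq_mul, mul_one]
  have h2 : (S.filter (fun r => ¬ ¬ r ∣ M)) ⊆ Finset.Icc 1 M := by
    intro r hr
    obtain ⟨h3, h4⟩ := Finset.mem_filter.1 hr
    rw [not_not] at h4
    rw [Finset.mem_Icc]
    exact ⟨(hS r h3).one_le, Nat.le_of_dvd hM h4⟩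
  have h3 := Finset.card_le_card h2
  rw [Nat.card_Icc] at h3
  have h4 : (S.filter (fun r => ¬ ¬ r ∣ M)).card ≤ M := by omega
  exact_mod_cast h4

/-- the upper bound for the split primes with the element a square -/
theorem al_le : ∃ C : ℝ, ∀ y : ℕ, 3 ≤ y →
    ∑ p ∈ (range (y + 1)).filter (fun p => Sp p ∧ Al p), (1 : ℝ) / p ≤
      1 / 16 * Real.log (Real.log y) + C := by
  obtain ⟨M, C, h0, h⟩ := base2
  obtain ⟨C1, hC1⟩ := sum_rp
  obtain ⟨C2, hC2⟩ := merW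
  refine ⟨(C + 24 * C1 + 8 * C2 + 24 * M) / 16, fun y hy => ?_⟩
  have hL := log_ge_one hy
  set L := Real.log y with hLdef
  have hL0 : (0 : ℝ) < L := by linarith
  set S := (range (y + 1)).filter (fun r => r.Prime ∧ ¬ r ∣ M) with hS
  have hSm : ∀ r ∈ S, r.Prime ∧ ¬ r ∣ M := fun r hr => (Finset.mem_filter.1 hr).2
  have hSy : ∀ r ∈ S, r.Prime ∧ r ≤ y := fun r hr =>
    ⟨(hSm r hr).1, by have := Finset.mem_range.1 (Finset.mem_filter.1 hr).1; omega⟩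
  have k := h S hSm (1 + 1 / L) (by have := one_div_pos.2 hL0; linarith)
    (by have := (div_lt_one hL0).2 hL; linarith)
  have e1 : 1 / (1 + 1 / L - 1) = L := by field_simp; ring
  rw [e1] at k
  have a1 := hC1 y hy (S.filter fun r => Sp r ∧ Al r)
    (fun r hr => hSy r (Finset.mem_filter.1 hr).1)
  have a2 := hC1 y hy (S.filter Wq) (fun r hr => hSy r (Finset.mem_filter.1 hr).1)
  have b1 := rem_M h0 ((range (y + 1)).filter (fun p => Sp p ∧ Al p))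
    (fun r hr => (Finset.mem_filter.1 hr).2.1.1)
  have b2 := rem_M h0 ((range (y + 1)).filter Wq) (fun r hr => (Finset.mem_filter.1 hr).2.1)
  have f1 : ((range (y + 1)).filter (fun p => Sp p ∧ Al p)).filter (fun r => ¬ r ∣ M) =
      S.filter fun r => Sp r ∧ Al r := by
    rw [hS, Finset.filter_filter, Finset.filter_filter]
    refine Finset.filter_congr fun p _ => ?_
    constructor
    · rintro ⟨h1, h2⟩
      exact ⟨⟨h1.1.1, h2⟩, h1⟩
    · rintro ⟨⟨-, h2⟩, h1⟩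
      exact ⟨h1, h2⟩
  have f2 : ((range (y + 1)).filter Wq).filter (fun r => ¬ r ∣ M) = S.filter Wq := by
    rw [hS, Finset.filter_filter, Finset.filter_filter]
    refine Finset.filter_congr fun p _ => ?_
    constructor
    · rintro ⟨h1, h2⟩
      exact ⟨⟨h1.1, h2⟩, h1⟩
    · rintro ⟨⟨-, h2⟩, h1⟩
      exact ⟨h1, h2⟩
  rw [f1] at b1
  rw [f2] at b2
  have c1 := (abs_le.1 (hC2 y hy)).1
  linarith

/-- **the two functions differ at many split primes** -/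
theorem merD_of {f g : ℕ → ZMod 2} (h : ∀ p, Sp p → f p = g p → Al p) : MerD f g := by
  obtain ⟨C1, h1⟩ := al_le
  obtain ⟨C2, h2⟩ := merS
  refine ⟨C1 + C2, fun y hy => ?_⟩
  have a1 := h1 y hy
  have a2 := (abs_le.1 (h2 y hy)).1
  have e : ∑ p ∈ (range (y + 1)).filter Sp, (1 : ℝ) / p ≤
      ∑ p ∈ (range (y + 1)).filter (fun p => Sp p ∧ f p ≠ g p), (1 : ℝ) / p +
      ∑ p ∈ (range (y + 1)).filter (fun p => Sp p ∧ Al p), (1 : ℝ) / p := by
    rw [Finset.sum_filter, Finset.sum_filter, Finset.sum_filter, ← Finset.sum_add_distrib]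
    refine Finset.sum_le_sum fun p _ => ?_
    have hnn : (0 : ℝ) ≤ 1 / (p : ℝ) := by positivity
    by_cases h3 : Sp p
    · by_cases h4 : f p = g p
      · rw [if_pos h3, if_neg (fun h5 => h5.2 h4), if_pos ⟨h3, h p h3 h4⟩, zero_add]
      · rw [if_pos h3, if_pos ⟨h3, h4⟩]
        split_ifs <;> linarith
    · rw [if_neg h3]
      split_ifs <;> linarith
  linarith

end Pool.Agent.R413.SJ
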