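import Pool.Agent.R413.SJ.Fld
import Pool.Agent.R413.SJ.Stm

/-!
# The primes at which `(-7 + √-7) / 2` is a square: four quartic fields
-/

set_option autoImplicit false

open scoped Classical

namespace Pool.Agent.R413.SJ

open Polynomial Finset

/-- the quartic polynomials -/
noncomputable def Ei (d : ℤ) : ℤ[X] := X ^ 4 + C (7 * d) * X ^ 2 + C (14 * d ^ 2)

theorem Ei_natDegree (d : ℤ) : (Ei d).natDegree = 4 := by
  unfold Ei
  compute_degree!

theorem Ei_monic (d : ℤ) : (Ei d).Monic := by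
  unfold Ei
  monicity!

theorem Ei_coeff (d : ℤ) (n : ℕ) (hn : n < 4) :
    (Ei d).coeff n = if n = 2 then 7 * d else if n = 0 then 14 * d ^ 2 else 0 := by
  unfold Ei
  rw [coeff_add, coeff_add, coeff_C_mul, coeff_X_pow, coeff_X_pow, coeff_C]
  interval_cases n <;> norm_num

theorem Ei_irr {d : ℤ} (hd : ¬ (7 : ℤ) ∣ d) : Irreducible ((Ei d).map (Int.castRingHom ℚ)) := by
  have h7 : Prime (7 : ℤ) := by norm_num
  have hP : (Ideal.span ({7} : Set ℤ)).IsPrime := (Ideal.span_singleton_prime (by norm_num)).2 h7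
  have h1 : Irreducible (Ei d) := by
    refine irreducible_of_eisenstein_criterion hP ?_ ?_ ?_ ?_ (Ei_monic d).isPrimitive
    · rw [(Ei_monic d).leadingCoeff, Ideal.mem_span_singleton]
      norm_num
    · intro n hn
      rw [degree_eq_natDegree (Ei_monic d).ne_zero, Ei_natDegree] at hn
      have hn' : n < 4 := by exact_mod_cast hn
      rw [Ei_coeff d n hn', Ideal.mem_span_singleton]
      split_ifs
      · exact ⟨d, rfl⟩
      · exact ⟨2 * d ^ 2, by ring⟩
      · exact dvd_zero _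
    · rw [degree_eq_natDegree (Ei_monic d).ne_zero, Ei_natDegree]
      norm_num
    · rw [Ei_coeff d 0 (by norm_num), if_neg (by norm_num), if_pos rfl, Ideal.span_singleton_pow,
        Ideal.mem_span_singleton]
      rintro ⟨k, hk⟩
      apply hd
      have h2 : (7 : ℤ) ∣ d ^ 2 * 2 := ⟨k, by linarith⟩
      rcases h7.dvd_or_dvd h2 with h3 | h3
      · exact h7.dvd_of_dvd_pow h3
      · norm_num at h3
  exact ((Ei_monic d).irreducible_iff_irreducible_map_fraction_map (K := ℚ)).1 h1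

/-- the number of roots when the quadratic splits -/
theorem nrt_eq {p : ℕ} [Fact p.Prime] (hp2 : p ≠ 2) {a b : ZMod p} (hab : a ≠ b)
    (h1 : a + b = -7) (h2 : a * b = 14) {d : ℤ} (hd : (d : ZMod p) ≠ 0) :
    (nrt (Ei d) p : ℤ) = 2 + quadraticChar (ZMod p) d * quadraticChar (ZMod p) a +
      quadraticChar (ZMod p) d * quadraticChar (ZMod p) b := by
  have hc : ringChar (ZMod p) ≠ 2 := by
    rw [ZMod.ringChar_zmod_n]
    exact hp2
  have e0 : ∀ t : ZMod p, ((Ei d).map (Int.castRingHom (ZMod p))).eval t = 0 ↔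
      t ^ 2 = d * a ∨ t ^ 2 = d * b := by
    intro t
    have e : ((Ei d).map (Int.castRingHom (ZMod p))).eval t = (t ^ 2 - d * a) * (t ^ 2 - d * b) := by
      unfold Ei
      simp only [Polynomial.map_add, Polynomial.map_mul, Polynomial.map_pow, map_X, map_C,
        eval_add, eval_mul, eval_pow, eval_X, eval_C]
      simp only [eq_intCast]
      push_cast
      linear_combination (d : ZMod p) * t ^ 2 * h1 - (d : ZMod p) ^ 2 * h2
    rw [e, mul_eq_zero, sub_eq_zero, sub_eq_zero]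
  have hu : nrt (Ei d) p = ({x : ZMod p | x ^ 2 = d * a}.toFinset ∪
      {x : ZMod p | x ^ 2 = d * b}.toFinset).card := by
    unfold nrt
    rw [Nat.card_eq_fintype_card, Fintype.card_subtype]
    congr 1
    ext t
    simp only [Finset.mem_filter, Finset.mem_univ, true_and, Finset.mem_union, Set.mem_toFinset,
      Set.mem_ofPred_eq]
    exact e0 t
  have hdis : Disjoint {x : ZMod p | x ^ 2 = d * a}.toFinset {x : ZMod p | x ^ 2 = d * b}.toFinset := by
    rw [Finset.disjoint_left]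
    intro x h3 h4
    rw [Set.mem_toFinset, Set.mem_ofPred_eq] at h3 h4
    exact hab (mul_left_cancel₀ hd (h3.symm.trans h4))
  rw [hu, Finset.card_union_of_disjoint hdis]
  push_cast
  rw [quadraticChar_card_sqrts hc, quadraticChar_card_sqrts hc, map_mul, map_mul]
  ring

theorem sq_m7 {p : ℕ} (hp : p.Prime) (h2 : p ≠ 2) (h7 : p % 7 = 1 ∨ p % 7 = 2 ∨ p % 7 = 4) :
    IsSquare (-7 : ZMod p) := by
  have : Fact p.Prime := ⟨hp⟩
  have : Fact (Nat.Prime 7) := ⟨by norm_num⟩
  have e : ((p : ℕ) : ZMod 7) = ((p % 7 : ℕ) : ZMod 7) := (ZMod.natCast_mod p 7).symm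
  have hs : IsSquare (p : ZMod 7) := by
    rw [e]
    rcases h7 with h | h | h <;> rw [h]
    · exact ⟨1, rfl⟩
    · exact ⟨3, rfl⟩
    · exact ⟨2, rfl⟩
  have hodd := hp.eq_two_or_odd.resolve_left h2
  have h3 : p % 4 = 1 ∨ p % 4 = 3 := by omega
  have hcast : (-7 : ZMod p) = (-1) * ((7 : ℕ) : ZMod p) := by push_cast; ring
  rcases h3 with h3 | h3
  · have h4 := (ZMod.exists_sq_eq_prime_iff_of_mod_four_eq_one (p := p) (q := 7) h3 (by norm_num)).2 hs
    have h5 : IsSquare (-1 : ZMod p) := ZMod.exists_sq_eq_neg_one_iff.2 (by omega)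
    rw [hcast]
    exact h5.mul h4
  · have hp7 : p ≠ 7 := by rintro rfl; omega
    have h4 := (ZMod.exists_sq_eq_prime_iff_of_mod_four_eq_three (p := p) (q := 7) h3 (by norm_num)
      hp7)
    have h5 : ¬ IsSquare ((7 : ℕ) : ZMod p) := fun h => (h4.1 h) hs
    have h6 : ¬ IsSquare (-1 : ZMod p) := fun h => ZMod.exists_sq_eq_neg_one_iff.1 h h3
    rw [hcast]
    have h70 : ((7 : ℕ) : ZMod p) ≠ 0 := fun h => h5 (h ▸ IsSquare.zero)
    have h10 : (-1 : ZMod p) ≠ 0 := neg_ne_zero.2 one_ne_zero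
    have c1 : quadraticChar (ZMod p) (-1) = -1 := quadraticChar_neg_one_iff_not_isSquare.2 h6
    have c2 : quadraticChar (ZMod p) ((7 : ℕ) : ZMod p) = -1 :=
      quadraticChar_neg_one_iff_not_isSquare.2 h5
    rw [← quadraticChar_one_iff_isSquare (mul_ne_zero h10 h70), map_mul, c1, c2]
    norm_num

/-- `(-7 + √-7) / 2` is a square -/
def Al (p : ℕ) : Prop := ∃ t : ZMod p, t ^ 4 + 7 * t ^ 2 + 14 = 0

/-- the total number of roots of the four polynomials -/
noncomputable def tot (p : ℕ) : ℕ := nrt (Ei 1) p + nrt (Ei (-1)) p + nrt (Ei 2) p + nrt (Ei (-2)) p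

theorem tot_eq {p : ℕ} (hp : p.Prime) (h2 : p ≠ 2) (h7 : p % 7 = 1 ∨ p % 7 = 2 ∨ p % 7 = 4) :
    ∃ a b : ZMod p, a + b = -7 ∧ a * b = 14 ∧ a ≠ 0 ∧ b ≠ 0 ∧ (haveI : Fact p.Prime := ⟨hp⟩
      (tot p : ℤ) = 8 + (1 + quadraticChar (ZMod p) (-1)) * (1 + quadraticChar (ZMod p) 2) *
        (quadraticChar (ZMod p) a + quadraticChar (ZMod p) b)) := by
  have : Fact p.Prime := ⟨hp⟩
  obtain ⟨i, hi⟩ := sq_m7 hp h2 h7
  have hp7 : p ≠ 7 := by rintro rfl; omega
  have h20 : (2 : ZMod p) ≠ 0 := by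
    intro h
    have h3 : ((2 : ℕ) : ZMod p) = 0 := by exact_mod_cast h
    rw [ZMod.natCast_eq_zero_iff] at h3
    exact h2 ((Nat.prime_dvd_prime_iff_eq hp Nat.prime_two).1 h3)
  have h70 : (7 : ZMod p) ≠ 0 := by
    intro h
    have h3 : ((7 : ℕ) : ZMod p) = 0 := by exact_mod_cast h
    rw [ZMod.natCast_eq_zero_iff] at h3
    exact hp7 ((Nat.prime_dvd_prime_iff_eq hp (by norm_num)).1 h3)
  have hi0 : i ≠ 0 := by
    rintro rfl
    rw [mul_zero] at hi
    exact h70 (neg_eq_zero.1 hi)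
  have e1 : (-7 + i) / 2 + (-7 - i) / 2 = -7 := by field_simp; ring
  have e2 : (-7 + i) / 2 * ((-7 - i) / 2) = 14 := by
    have : (-7 + i) / 2 * ((-7 - i) / 2) = (49 - i * i) / 4 := by
      rw [div_mul_div_comm]
      congr 1 <;> ring
    rw [this, ← hi]
    rw [div_eq_iff (by
      have : (4 : ZMod p) = 2 * 2 := by norm_num
      rw [this]
      exact mul_ne_zero h20 h20)]
    norm_num
  have h14 : (14 : ZMod p) ≠ 0 := by
    have : (14 : ZMod p) = 2 * 7 := by norm_num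
    rw [this]
    exact mul_ne_zero h20 h70
  have hne : (-7 + i) / 2 ≠ (-7 - i) / 2 := by
    intro h
    have h3 : (-7 + i) - (-7 - i) = 0 := by
      rw [div_left_inj' h20] at h
      rw [h, sub_self]
    have h4 : 2 * i = 0 := by linear_combination h3
    exact (mul_ne_zero h20 hi0) h4
  refine ⟨(-7 + i) / 2, (-7 - i) / 2, e1, e2, ?_, ?_, ?_⟩
  · intro h
    rw [h, zero_mul] at e2
    exact h14 e2.symm
  · intro h
    rw [h, mul_zero] at e2
    exact h14 e2.symm
  · unfold tot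
    have n10 : (-1 : ZMod p) ≠ 0 := neg_ne_zero.2 one_ne_zero
    have k1 := nrt_eq h2 hne e1 e2 (d := 1) (by push_cast; exact one_ne_zero)
    have k2 := nrt_eq h2 hne e1 e2 (d := -1) (by push_cast; exact n10)
    have k3 := nrt_eq h2 hne e1 e2 (d := 2) (by push_cast; exact h20)
    have k4 := nrt_eq h2 hne e1 e2 (d := -2) (by push_cast; exact neg_ne_zero.2 h20)
    have q1 : quadraticChar (ZMod p) ((1 : ℤ) : ZMod p) = 1 := by push_cast; exact map_one _
    have q2 : quadraticChar (ZMod p) ((-1 : ℤ) : ZMod p) = quadraticChar (ZMod p) (-1) := by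
      push_cast; rfl
    have q3 : quadraticChar (ZMod p) ((2 : ℤ) : ZMod p) = quadraticChar (ZMod p) 2 := by
      push_cast; rfl
    have q4 : quadraticChar (ZMod p) ((-2 : ℤ) : ZMod p) =
        quadraticChar (ZMod p) (-1) * quadraticChar (ZMod p) 2 := by
      rw [← map_mul]
      congr 1
      push_cast
      ring
    rw [q1] at k1
    rw [q2] at k2
    rw [q3] at k3
    rw [q4] at k4
    push_cast
    rw [k1, k2, k3, k4]
    ring

/-- split primes, not `1` modulo `8` -/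
theorem tot_ge8 {p : ℕ} (hp : p.Prime) (h2 : p ≠ 2) (h7 : p % 7 = 1 ∨ p % 7 = 2 ∨ p % 7 = 4)
    (h8 : p % 8 ≠ 1) : tot p = 8 := by
  have : Fact p.Prime := ⟨hp⟩
  obtain ⟨a, b, -, -, -, -, h⟩ := tot_eq hp h2 h7
  have hodd := hp.eq_two_or_odd.resolve_left h2
  have h20 : (2 : ZMod p) ≠ 0 := by
    intro h
    have h3 : ((2 : ℕ) : ZMod p) = 0 := by exact_mod_cast h
    rw [ZMod.natCast_eq_zero_iff] at h3
    exact h2 ((Nat.prime_dvd_prime_iff_eq hp Nat.prime_two).1 h3)
  have hz : (1 + quadraticChar (ZMod p) (-1)) * (1 + quadraticChar (ZMod p) 2) = 0 := by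
    by_cases h4 : p % 4 = 3
    · have h6 : ¬ IsSquare (-1 : ZMod p) := fun h => ZMod.exists_sq_eq_neg_one_iff.1 h h4
      rw [quadraticChar_neg_one_iff_not_isSquare.2 h6]
      ring
    · have h6 : ¬ IsSquare (2 : ZMod p) := fun h => by
        have := (ZMod.exists_sq_eq_two_iff h2).1 h
        omega
      rw [quadraticChar_neg_one_iff_not_isSquare.2 h6]
      ring
  rw [hz, zero_mul, add_zero] at h
  exact_mod_cast h

/-- totally split primes -/
theorem tot_ge16 {p : ℕ} (hp : Pool.Agent.Y703.CQ.Sp p) (ha : Al p) : tot p = 16 := by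
  obtain ⟨hp1, h8, h7⟩ := hp
  have h2 : p ≠ 2 := by rintro rfl; omega
  have : Fact p.Prime := ⟨hp1⟩
  obtain ⟨a, b, e1, e2, ha0, hb0, h⟩ := tot_eq hp1 h2 h7
  have hm1 : IsSquare (-1 : ZMod p) := ZMod.exists_sq_eq_neg_one_iff.2 (by omega)
  have hm2 : IsSquare (2 : ZMod p) := (ZMod.exists_sq_eq_two_iff h2).2 (by omega)
  have h20 : (2 : ZMod p) ≠ 0 := by
    intro h
    have h3 : ((2 : ℕ) : ZMod p) = 0 := by exact_mod_cast h
    rw [ZMod.natCast_eq_zero_iff] at h3
    exact h2 ((Nat.prime_dvd_prime_iff_eq hp1 Nat.prime_two).1 h3)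
  have hm7 : IsSquare (7 : ZMod p) := by
    have h3 := hm1.mul (sq_m7 hp1 h2 h7)
    rwa [show (-1 : ZMod p) * -7 = 7 by ring] at h3
  have hm14 : IsSquare (14 : ZMod p) := by
    have h3 := hm2.mul hm7
    rwa [show (2 : ZMod p) * 7 = 14 by norm_num] at h3
  have c1 : quadraticChar (ZMod p) (-1) = 1 :=
    (quadraticChar_one_iff_isSquare (neg_ne_zero.2 one_ne_zero)).2 hm1
  have c2 : quadraticChar (ZMod p) 2 = 1 := (quadraticChar_one_iff_isSquare h20).2 hm2
  have c3 : quadraticChar (ZMod p) a * quadraticChar (ZMod p) b = 1 := by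
    rw [← map_mul, e2]
    refine (quadraticChar_one_iff_isSquare ?_).2 hm14
    rw [← e2]
    exact mul_ne_zero ha0 hb0
  obtain ⟨t, ht⟩ := ha
  have hab : t ^ 2 = a ∨ t ^ 2 = b := by
    have e : (t ^ 2 - a) * (t ^ 2 - b) = 0 := by
      linear_combination ht - t ^ 2 * e1 + e2
    rcases mul_eq_zero.1 e with h3 | h3
    · exact Or.inl (sub_eq_zero.1 h3)
    · exact Or.inr (sub_eq_zero.1 h3)
  have c4 : quadraticChar (ZMod p) a = 1 ∧ quadraticChar (ZMod p) b = 1 := by
    rcases hab with h3 | h3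
    · have h4 : quadraticChar (ZMod p) a = 1 :=
        (quadraticChar_one_iff_isSquare ha0).2 ⟨t, by rw [← h3]; ring⟩
      rw [h4, one_mul] at c3
      exact ⟨h4, c3⟩
    · have h4 : quadraticChar (ZMod p) b = 1 :=
        (quadraticChar_one_iff_isSquare hb0).2 ⟨t, by rw [← h3]; ring⟩
      rw [h4, mul_one] at c3
      exact ⟨c3, h4⟩
  rw [c1, c2, c4.1, c4.2] at h
  norm_num at h
  exact_mod_cast h

end Pool.Agent.R413.SJ
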