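import Pool.Agent.TH841.NF.ShaN
import Pool.Agent.TH841.NF.Chi

/-!
# The two definitions of the Tate-Shafarevich group over `ℚ` agree

`ℚ_p` and `ℝ`, or the completions of `ℚ` at its places.
-/

set_option autoImplicit false

namespace Pool.Agent.R413.SJ.ShaQ

open WeierstrassCurve IsDedekindDomain NumberField

open Pool.Agent.TH841.SH.D (Pt act Gal Coch IsCoc IsCob LocTriv cob)
open Pool.Agent.TH841.NF (act_act)

/-- local triviality depends only on the isomorphism class of the field -/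
theorem loc_equiv {k : Type} [Field k] (W : WeierstrassCurve k) {K K' : Type} [Field K] [Field K']
    [Algebra k K] [Algebra k K'] (e : K ≃ₐ[k] K') {f : Coch W} (h : LocTriv W K f) :
    LocTriv W K' f := by
  intro ι'
  let Φ0 : AlgebraicClosure K ≃+* AlgebraicClosure K' :=
    IsAlgClosure.equivOfEquiv (AlgebraicClosure K) (AlgebraicClosure K') e.toRingEquiv
  have hΦ : ∀ x : K, Φ0 (algebraMap K _ x) = algebraMap K' _ (e x) := fun x =>
    IsAlgClosure.equivOfEquiv_algebraMap (AlgebraicClosure K) (AlgebraicClosure K') e.toRingEquiv x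
  let Φ : AlgebraicClosure K ≃ₐ[k] AlgebraicClosure K' := AlgEquiv.ofRingEquiv (f := Φ0) (by
    intro r
    rw [IsScalarTower.algebraMap_apply k K (AlgebraicClosure K), hΦ, e.commutes,
      ← IsScalarTower.algebraMap_apply])
  have hΦa : ∀ x, Φ x = Φ0 x := fun _ => rfl
  obtain ⟨P, hP⟩ := h (Φ.symm.toAlgHom.comp ι')
  refine ⟨act W Φ.toAlgHom P, fun τ' σ hτ => ?_⟩
  let τ : Gal K := AlgEquiv.ofRingEquiv (f := (Φ0.trans τ'.toRingEquiv).trans Φ0.symm) (by
    intro x
    change Φ0.symm (τ' (Φ0 (algebraMap K _ x))) = algebraMap K _ x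
    rw [hΦ, τ'.commutes, ← hΦ, RingEquiv.symm_apply_apply])
  have hτa : ∀ x, τ x = Φ0.symm (τ' (Φ0 x)) := fun _ => rfl
  have h1 := hP τ σ (fun x => by
    change τ (Φ.symm (ι' x)) = Φ.symm (ι' (σ x))
    rw [hτa, ← hτ x]
    have : Φ0 (Φ.symm (ι' x)) = ι' x := Φ.apply_symm_apply _
    rw [this]
    rfl)
  have h2 := congrArg (act W Φ.toAlgHom) h1
  rw [map_sub, act_act, act_act] at h2
  have e1 : Φ.toAlgHom.comp (Φ.symm.toAlgHom.comp ι') = ι' := by
    ext x
    exact Φ.apply_symm_apply _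
  have e2 : Φ.toAlgHom.comp (τ.toAlgHom.restrictScalars k) =
      (τ'.toAlgHom.restrictScalars k).comp Φ.toAlgHom := by
    ext x
    change Φ (τ x) = τ' (Φ x)
    rw [hτa, hΦa]
    exact Φ0.apply_symm_apply _
  rw [e1, e2, ← act_act] at h2
  exact h2

/-- the ring version, over `ℚ` -/
theorem loc_ring (W : WeierstrassCurve ℚ) {K K' : Type} [Field K] [Field K']
    [Algebra ℚ K] [Algebra ℚ K'] (e : K ≃+* K') {f : Coch W} (h : LocTriv W K f) :
    LocTriv W K' f := by
  refine loc_equiv W (AlgEquiv.ofRingEquiv (f := e) fun r => ?_) h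
  exact RingHom.congr_fun (Subsingleton.elim ((e : K →+* K').comp (algebraMap ℚ K))
    (algebraMap ℚ K')) r

/-- the primes are prime -/
local instance factP (q : Nat.Primes) : Fact (Nat.Prime (q : ℕ)) := ⟨q.2⟩

theorem real_place (v : InfinitePlace ℚ) : v.IsReal := by
  rw [Subsingleton.elim v Rat.infinitePlace]
  exact Rat.isReal_infinitePlace

/-- the two conditions agree -/
theorem sha_iff (W : WeierstrassCurve ℚ) (f : Coch W) :
    Pool.Agent.TH841.NF.D.IsShaCoc W f ↔ Pool.Agent.TH841.SH.D.IsShaCoc W f := by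
  constructor
  · rintro ⟨h1, h2, h3⟩
    refine ⟨h1, fun p hp => ?_, ?_⟩
    · let v : HeightOneSpectrum (𝓞 ℚ) :=
        (Rat.HeightOneSpectrum.primesEquiv (R := 𝓞 ℚ)).symm ⟨p, hp.out⟩
      have h4 := loc_ring W
        (Rat.HeightOneSpectrum.adicCompletion.padicEquiv (R := 𝓞 ℚ) v).toRingEquiv (h2 v)
      have h5 : ∀ q : Nat.Primes, Rat.HeightOneSpectrum.primesEquiv (R := 𝓞 ℚ) v = q →
          LocTriv W ℚ_[q] f := by
        rintro _ rfl
        exact h4
      exact h5 ⟨p, hp.out⟩ (Equiv.apply_symm_apply _ _)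
    · exact loc_ring W (InfinitePlace.Completion.ringEquivRealOfIsReal
        (real_place Rat.infinitePlace)) (h3 Rat.infinitePlace)
  · rintro ⟨h1, h2, h3⟩
    refine ⟨h1, fun v => ?_, fun v => ?_⟩
    · exact loc_ring W
        (Rat.HeightOneSpectrum.adicCompletion.padicEquiv (R := 𝓞 ℚ) v).symm.toRingEquiv
        (h2 (Rat.HeightOneSpectrum.primesEquiv (R := 𝓞 ℚ) v))
    · exact loc_ring W (InfinitePlace.Completion.ringEquivRealOfIsReal (real_place v)).symm h3

/-- the groups of the cocycles are the same -/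
theorem coc_eq (W : WeierstrassCurve ℚ) :
    Pool.Agent.TH841.NF.D.shaCoc W = Pool.Agent.TH841.SH.D.shaCoc W :=
  AddSubgroup.ext fun f => sha_iff W f

/-- an isomorphism of the two groups -/
noncomputable def iso (W : WeierstrassCurve ℚ) :
    Pool.Agent.TH841.NF.D.Sha W ≃+ Pool.Agent.TH841.SH.D.Sha W :=
  QuotientAddGroup.congr ((cob W).addSubgroupOf (Pool.Agent.TH841.NF.D.shaCoc W))
    ((cob W).addSubgroupOf (Pool.Agent.TH841.SH.D.shaCoc W))
    (AddEquiv.addSubgroupCongr (coc_eq W)) (by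
      ext x
      rw [AddSubgroup.mem_map]
      constructor
      · rintro ⟨y, hy, rfl⟩
        exact hy
      · intro hx
        exact ⟨(AddEquiv.addSubgroupCongr (coc_eq W)).symm x, hx, rfl⟩)

/-- the elements of order two -/
theorem two_iff (W : WeierstrassCurve ℚ) :
    (∀ x : Pool.Agent.TH841.SH.D.Sha W, 2 • x = 0 → x = 0) ↔
      ∀ x : Pool.Agent.TH841.NF.D.Sha W, 2 • x = 0 → x = 0 := by
  constructor
  · intro h x hx
    have h1 := h (iso W x) (by rw [← map_nsmul, hx, map_zero])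
    exact (map_eq_zero_iff (iso W) (iso W).injective).1 h1
  · intro h x hx
    have h1 := h ((iso W).symm x) (by rw [← map_nsmul, hx, map_zero])
    exact (map_eq_zero_iff (iso W).symm (iso W).symm.injective).1 h1

end Pool.Agent.R413.SJ.ShaQ
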